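import Pool.Agent.Q62.HU.Count
import Pool.Agent.H709R2.IntE

/-! The closed orbits in a zone of dominance, classified by the margin. -/

open Real Set MeasureTheory Topology Filter
open scoped ENNReal

namespace Pool.Agent.Q62.HU

noncomputable section

open Pool.Agent.H709R2 (rot wedge field ClosedOrbit)
open Pool.Agent.H709U Pool.Agent.W960.HQ
open Pool.Agent.H709Q (Maj majRules)

variable {n : ℕ} {P Q : MvPolynomial (Fin 2) ℝ} {p : ℝ × ℝ}

lemma Hyp.add {D : Parts n P Q p} {s c : ℝ} {k : ℕ} (H : Hyp D s c k) (i : ℕ) :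
    Hyp D (s + i) c k where
  hk := H.hk
  hm := H.hm
  hc0 := H.hc0
  hc := H.hc
  hs := by
    refine le_trans ?_ H.hs
    refine mul_le_mul_of_nonneg_left (exp_le_exp.2 ?_) (Nat.cast_nonneg n)
    have : (0:ℝ) ≤ i := Nat.cast_nonneg i
    linarith

lemma dom_mn {D : Parts n P Q p} {s c : ℝ} {k : ℕ} (H : Hyp D s c k) {α : ℝ}
    {C : Set (ℝ × ℝ)} (h : ZC D s k α C) : D.Dom s k (mn p C) ∧
      ∀ z ∈ C, mn p C ≤ lg p z := by
  obtain ⟨γ, T, hc⟩ := exists_cv H h
  obtain ⟨t, ht, hle⟩ := hc.lo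
  refine ⟨?_, fun z hz => ?_⟩
  · rw [← ht]
    exact h.dom _ (by rw [hc.rg]; exact ⟨t, rfl⟩)
  · rw [hc.rg] at hz
    obtain ⟨t', rfl⟩ := hz
    exact hle t'

lemma dom_mx {D : Parts n P Q p} {s c : ℝ} {k : ℕ} (H : Hyp D s c k) {α : ℝ}
    {C : Set (ℝ × ℝ)} (h : ZC D s k α C) : D.Dom s k (mx p C) ∧
      ∀ z ∈ C, lg p z ≤ mx p C := by
  obtain ⟨γ, T, hc⟩ := exists_cv H h
  obtain ⟨t, ht, hle⟩ := hc.hi
  refine ⟨?_, fun z hz => ?_⟩
  · rw [← ht]
    exact h.dom _ (by rw [hc.rg]; exact ⟨t, rfl⟩)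
  · rw [hc.rg] at hz
    obtain ⟨t', rfl⟩ := hz
    exact hle t'

/-- a closed curve is an orbit for at most one angle -/
lemma ang_unique {α β : ℝ} (hαβ : |β - α| ≤ π / 2) {C : Set (ℝ × ℝ)}
    (h : ClosedOrbit (rf (field P Q) α) C) (h' : ClosedOrbit (rf (field P Q) β) C) : α = β := by
  by_contra hne
  have hπ := Real.pi_pos
  have hsin : Real.sin (β - α) ≠ 0 := by
    intro h0
    have h1 := abs_le.1 hαβ
    rcases lt_trichotomy (β - α) 0 with h3 | h3 | h3
    · have := Real.sin_neg_of_neg_of_neg_pi_lt h3 (by linarith)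
      linarith
    · exact hne (by linarith)
    · have := Real.sin_pos_of_pos_of_lt_pi h3 (by linarith)
      linarith
  have hd := W960.HP.disjoint_rf (H709R2.contDiff_field P Q) hsin h h'
  obtain ⟨γ, T, -, -, -, -, rfl⟩ := h
  exact (Set.disjoint_left.1 hd) ⟨0, rfl⟩ ⟨0, rfl⟩

/-- margin in the interval `[s + i, s + i + 1)`, limited by a part of lower degree -/
def clm (D : Parts n P Q p) (s : ℝ) (k i : ℕ) (α : ℝ) : Set (Set (ℝ × ℝ)) :=
  {C | ZC D (s + i) k α C ∧ ∃ j ∈ Finset.range (n + 1), j < k ∧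
    exp (-(s + i + 1)) * D.m k < exp (((j:ℝ) - k) * mn p C) * D.m j}

/-- margin in the interval `[s + i, s + i + 1)`, limited by a part of higher degree -/
def clp (D : Parts n P Q p) (s : ℝ) (k i : ℕ) (α : ℝ) : Set (Set (ℝ × ℝ)) :=
  {C | ZC D (s + i) k α C ∧ ∃ j ∈ Finset.range (n + 1), k < j ∧
    exp (-(s + i + 1)) * D.m k < exp (((j:ℝ) - k) * mx p C) * D.m j}

/-- infinite margin -/
def cli (D : Parts n P Q p) (s : ℝ) (k : ℕ) (α : ℝ) : Set (Set (ℝ × ℝ)) :=
  {C | ∀ i : ℕ, ZC D (s + i) k α C}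

lemma gap {s d u v a b : ℝ} (hb : 0 < b) (h1 : exp (-(s + 1)) * a < exp (d * u) * b)
    (h2 : exp (d * v) * b ≤ exp (-s) * a) : d * (v - u) < 1 := by
  have h3 : exp (-s) * a = exp 1 * (exp (-(s + 1)) * a) := by
    rw [← mul_assoc, ← exp_add]
    congr 2
    ring
  have h4 : exp (d * v) * b < exp 1 * (exp (d * u) * b) :=
    (h2.trans_eq h3).trans_lt (mul_lt_mul_of_pos_left h1 (exp_pos 1))
  have h5 : exp (d * v) < exp (1 + d * u) := by
    rw [exp_add]
    rw [← mul_assoc] at h4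
    exact lt_of_mul_lt_mul_right h4 hb.le
  have h6 := exp_lt_exp.1 h5
  linarith

lemma pos_of_fail {D : Parts n P Q p} {j k : ℕ} {e x : ℝ} (h : exp e * D.m k < exp x * D.m j) :
    0 < D.m j := by
  rcases (D.m_nonneg j).eq_or_lt with h0 | h0
  · rw [← h0, mul_zero] at h
    have := mul_nonneg (exp_pos e).le (D.m_nonneg k)
    linarith
  · exact h0

theorem maj_clm {D : Parts n P Q p} {s c : ℝ} {k : ℕ} (H : Hyp D s c k) {Hf : Set ℝ}
    (hH : ∀ α ∈ Hf, ∀ β ∈ Hf, |β - α| ≤ π / 2) (i : ℕ) :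
    Maj (cnt Hf (clm D s k i)) (π * n ^ 2 / c * exp (-(s + i))) := by
  have hc0 := H.hc0
  refine maj_lip (mn p) (by positivity) ?_ ?_ ?_
  · intro α hα β hβ C hC C' hC' hne
    exact pair_min (H.add i) (hH α hα β hβ) hC.1 hC'.1 hne
  · intro α hα β hβ C hC hC'
    exact ang_unique (hH α hα β hβ) hC.1.orb hC'.1.orb
  · have key : ∀ α ∈ Hf, ∀ β ∈ Hf, ∀ C ∈ clm D s k i α, ∀ C' ∈ clm D s k i β,
        mn p C - mn p C' ≤ 1 := by
      intro α hα β hβ C hC C' hC'
      by_contra hcon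
      push Not at hcon
      obtain ⟨hz, j, hj, hjk, hf⟩ := hC
      have h1 := dom_exp D (dom_mn (H.add i) hC'.1).1 hj hjk.ne
      have h2 := gap (pos_of_fail hf) hf h1
      have h3 : (j:ℝ) + 1 ≤ k := by exact_mod_cast hjk
      nlinarith
    intro α hα β hβ C hC C' hC'
    rw [abs_le]
    constructor
    · linarith [key α hα β hβ C hC C' hC']
    · exact key β hβ α hα C' hC' C hC

theorem maj_clp {D : Parts n P Q p} {s c : ℝ} {k : ℕ} (H : Hyp D s c k) {Hf : Set ℝ}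
    (hH : ∀ α ∈ Hf, ∀ β ∈ Hf, |β - α| ≤ π / 2) (i : ℕ) :
    Maj (cnt Hf (clp D s k i)) (π * n ^ 2 / c * exp (-(s + i))) := by
  have hc0 := H.hc0
  refine maj_lip (mx p) (by positivity) ?_ ?_ ?_
  · intro α hα β hβ C hC C' hC' hne
    exact pair_max (H.add i) (hH α hα β hβ) hC.1 hC'.1 hne
  · intro α hα β hβ C hC hC'
    exact ang_unique (hH α hα β hβ) hC.1.orb hC'.1.orb
  · have key : ∀ α ∈ Hf, ∀ β ∈ Hf, ∀ C ∈ clp D s k i α, ∀ C' ∈ clp D s k i β,
        mx p C' - mx p C ≤ 1 := by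
      intro α hα β hβ C hC C' hC'
      by_contra hcon
      push Not at hcon
      obtain ⟨hz, j, hj, hjk, hf⟩ := hC
      have h1 := dom_exp D (dom_mx (H.add i) hC'.1).1 hj hjk.ne'
      have h2 := gap (pos_of_fail hf) hf h1
      have h3 : (k:ℝ) + 1 ≤ j := by exact_mod_cast hjk
      nlinarith
    intro α hα β hβ C hC C' hC'
    rw [abs_le]
    constructor
    · linarith [key β hβ α hα C' hC' C hC]
    · exact key α hα β hβ C hC C' hC'

theorem maj_cli {D : Parts n P Q p} {s c : ℝ} {k : ℕ} (H : Hyp D s c k) {Hf : Set ℝ}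
    (hH : ∀ α ∈ Hf, ∀ β ∈ Hf, |β - α| ≤ π / 2) : Maj (cnt Hf (cli D s k)) 0 := by
  refine maj_single fun α hα β hβ ⟨C, hC⟩ ⟨C', hC'⟩ => ?_
  by_cases hne : C = C'
  · subst hne
    exact ang_unique (hH α hα β hβ) (hC 0).orb (hC' 0).orb
  have h1 : ∀ i : ℕ, |β - α| ≤ π * n ^ 2 / c * exp (-s) * |mn p C' - mn p C| * exp (-1) ^ i := by
    intro i
    refine (pair_min (H.add i) (hH α hα β hβ) (hC i) (hC' i) hne).2.trans (le_of_eq ?_)
    rw [← exp_nat_mul, show -(s + (i:ℝ)) = -s + (i:ℝ) * -1 by ring, exp_add]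
    ring
  have h2 : Tendsto (fun i : ℕ => π * n ^ 2 / c * exp (-s) * |mn p C' - mn p C| * exp (-1) ^ i)
      atTop (𝓝 (π * n ^ 2 / c * exp (-s) * |mn p C' - mn p C| * 0)) :=
    (tendsto_pow_atTop_nhds_zero_of_lt_one (exp_pos _).le (by
      rw [exp_lt_one_iff]; norm_num)).const_mul _
  rw [mul_zero] at h2
  have h3 : |β - α| ≤ 0 := ge_of_tendsto' h2 h1
  have h4 := abs_nonpos_iff.1 h3
  linarith

/-- the classes cover -/
lemma cover {D : Parts n P Q p} {s c : ℝ} {k : ℕ} (H : Hyp D s c k) (α : ℝ) :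
    {C | ZC D s k α C} ⊆ cli D s k α ∪ ⋃ i : ℕ, (clm D s k i α ∪ clp D s k i α) := by
  classical
  intro C hC
  by_cases hall : ∀ i : ℕ, ZC D (s + i) k α C
  · exact Or.inl hall
  right
  push Not at hall
  have hex : ∃ i : ℕ, ¬ ZC D (s + i) k α C := hall
  obtain ⟨m, hm⟩ : ∃ m, m = Nat.find hex := ⟨_, rfl⟩
  have hm1 : ¬ ZC D (s + m) k α C := by rw [hm]; exact Nat.find_spec hex
  have hm2 : ∀ i < m, ZC D (s + i) k α C := by
    intro i hi
    by_contra h
    exact Nat.find_min hex (hm ▸ hi) h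
  cases m with
  | zero =>
    exfalso
    apply hm1
    rw [Nat.cast_zero, add_zero]
    exact hC
  | succ i =>
    have hz := hm2 i (Nat.lt_succ_self i)
    have hfail : ∃ z ∈ C, ∃ j ∈ Finset.range (n + 1), j ≠ k ∧
        exp (-(s + i + 1)) * D.m k < exp (((j:ℝ) - k) * lg p z) * D.m j := by
      by_contra hcon
      push Not at hcon
      apply hm1
      refine ⟨hC.orb, hC.np, fun z hz j hj hjk => ?_⟩
      have h1 := hcon z hz j hj hjk
      have h2 : exp (((j:ℝ) - k) * lg p z) * exp (lg p z) ^ k = exp (lg p z) ^ j := by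
        rw [← exp_nat_mul, ← exp_nat_mul, ← exp_add]
        congr 1
        ring
      have h3 := mul_le_mul_of_nonneg_right h1 (pow_pos (exp_pos (lg p z)) k).le
      push_cast
      rw [← h2, ← add_assoc]
      calc exp (((j:ℝ) - k) * lg p z) * exp (lg p z) ^ k * D.m j
          = exp (((j:ℝ) - k) * lg p z) * D.m j * exp (lg p z) ^ k := by ring
        _ ≤ _ := h3
        _ = _ := by ring
    obtain ⟨z, hzC, j, hj, hjk, hf⟩ := hfail
    simp only [mem_iUnion]
    refine ⟨i, ?_⟩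
    have hm0 := pos_of_fail hf
    rcases lt_or_gt_of_ne hjk with h | h
    · left
      refine ⟨hz, j, hj, h, hf.trans_le (mul_le_mul_of_nonneg_right (exp_le_exp.2 ?_) hm0.le)⟩
      have h1 := (dom_mn (H.add i) hz).2 z hzC
      have h2 : (j:ℝ) ≤ k := by exact_mod_cast h.le
      nlinarith
    · right
      refine ⟨hz, j, hj, h, hf.trans_le (mul_le_mul_of_nonneg_right (exp_le_exp.2 ?_) hm0.le)⟩
      have h1 := (dom_mx (H.add i) hz).2 z hzC
      have h2 : (k:ℝ) ≤ j := by exact_mod_cast h.le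
      nlinarith

/-- **One zone, one half of the angles.** -/
theorem maj_zone {D : Parts n P Q p} {s c : ℝ} {k : ℕ} (H : Hyp D s c k) {Hf : Set ℝ}
    (hH : ∀ α ∈ Hf, ∀ β ∈ Hf, |β - α| ≤ π / 2) :
    Maj (cnt Hf fun α => {C | ZC D s k α C}) (π * n ^ 2 / c * exp (-s) * (10 / 3)) := by
  have hc0 := H.hc0
  have hK : 0 ≤ π * n ^ 2 / c * exp (-s) := by positivity
  -- the sum of the classes
  have hr0 : (0:ℝ) ≤ exp (-1) := (exp_pos _).le
  have hr1 : exp (-1 : ℝ) < 1 := by rw [exp_lt_one_iff]; norm_num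
  have hsum := (hasSum_geometric_of_lt_one hr0 hr1).mul_left (2 * (π * n ^ 2 / c * exp (-s)))
  have hcl : ∀ i : ℕ, Maj (fun α => cnt Hf (clm D s k i) α + cnt Hf (clp D s k i) α)
      (2 * (π * n ^ 2 / c * exp (-s)) * exp (-1) ^ i) := by
    intro i
    have h1 := majRules.2.1 _ _ _ _ (by positivity) (by positivity) (maj_clm H hH i)
      (maj_clp H hH i)
    refine maj_mono (fun _ _ => le_rfl) (le_of_eq ?_) h1
    rw [← exp_nat_mul, show -(s + (i:ℝ)) = -s + (i:ℝ) * -1 by ring, exp_add]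
    ring
  have h2 := majRules.2.2.1 _ _ _ (fun i => by positivity) hsum hcl
  have hS : 0 ≤ 2 * (π * n ^ 2 / c * exp (-s)) * (1 - exp (-1))⁻¹ := by
    have : 0 < 1 - exp (-1 : ℝ) := by linarith
    positivity
  have h3 := majRules.2.1 _ _ _ _ le_rfl hS (maj_cli H hH) h2
  refine maj_mono (fun α _ => ?_) ?_ h3
  · unfold cnt
    by_cases hα : α ∈ Hf
    · simp only [indicator_of_mem hα]
      refine (ENat.toENNReal_le.2 (encard_le_encard (cover H α))).trans ?_
      refine (ENat.toENNReal_le.2 (encard_union_le _ _)).trans ?_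
      rw [ENat.toENNReal_add]
      refine add_le_add le_rfl ?_
      refine (H709R2.encard_le_tsum subset_rfl).trans (ENNReal.tsum_le_tsum fun i => ?_)
      exact (ENat.toENNReal_le.2 (encard_union_le _ _)).trans (le_of_eq (ENat.toENNReal_add _ _))
    · rw [indicator_of_notMem hα]
      exact bot_le
  · have h4 : (1 - exp (-1 : ℝ))⁻¹ ≤ 5 / 3 := by
      have h5 := Real.exp_neg_one_lt_d9
      rw [inv_le_comm₀ (by linarith) (by norm_num)]
      norm_num
      linarith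
    rw [zero_add]
    nlinarith

end

end Pool.Agent.Q62.HU
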