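import Pool.Agent.Q62.HU.Gen

/-! The general count in terms of the translated polynomials, and its corollaries. -/

open Real Set MeasureTheory Topology Filter
open scoped ENNReal

namespace Pool.Agent.Q62.HU

noncomputable section

open Pool.Agent.H709R2 (rot wedge field ClosedOrbit)
open Pool.Agent.H709U Pool.Agent.W960.HQ
open Pool.Agent.H709Q (Maj majRules)

variable {n : ℕ} {P Q : MvPolynomial (Fin 2) ℝ} {p : ℝ × ℝ}

/-- at the distance `r` some part dominates by the factor `2 n / c` and is large in all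
directions -/
def Ctl (n : ℕ) (P Q : MvPolynomial (Fin 2) ℝ) (c : ℝ) (p : ℝ × ℝ) (r : ℝ) : Prop :=
  ∃ k, 0 < siz P Q p k ∧ (∀ j, j ≠ k → 2 * n / c * (siz P Q p j * r ^ j) ≤ siz P Q p k * r ^ k) ∧
    ∀ θ, c * siz P Q p k ≤ prt P Q p k θ

lemma gd_of_ctl (hP : P.totalDegree ≤ n) (hQ : Q.totalDegree ≤ n) (hn : 1 ≤ n)
    {D : Parts n P Q p} (hD1 : ∀ j θ, √(D.q j θ) = prt P Q p j θ)
    (hD2 : ∀ j, D.m j = siz P Q p j) {c : ℝ} (hc0 : 0 < c) {u : ℝ}
    (h : Ctl n P Q c p (exp u)) : Gd D c u := by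
  obtain ⟨k, hk, hd, hdef⟩ := h
  have hn' : (0:ℝ) < n := by exact_mod_cast hn
  have hkn : k ∈ Finset.range (n + 1) := by
    rw [Finset.mem_range]
    by_contra hcon
    rw [siz_zero hP hQ p (by omega)] at hk
    exact lt_irrefl _ hk
  refine ⟨k, hkn, by rw [hD2]; exact hk, fun j _ hjk => ?_, fun θ => ?_⟩
  · rw [exp_neg_log hn hc0, hD2, hD2]
    have h1 := hd j hjk
    have h2 := mul_le_mul_of_nonneg_left h1 (show (0:ℝ) ≤ c / (2 * n) by positivity)
    calc exp u ^ j * siz P Q p j = c / (2 * n) * (2 * n / c * (siz P Q p j * exp u ^ j)) := by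
          field_simp
      _ ≤ _ := h2
      _ = c / (2 * n) * (exp u ^ k * siz P Q p k) := by ring
  · rw [hD2, hD1]
    exact hdef θ

/-- the general count in terms of radii -/
theorem gen' (hP : P.totalDegree ≤ n) (hQ : Q.totalDegree ≤ n) (hn : 1 ≤ n)
    (hPQ : IsRelPrime P Q) {c : ℝ} (hc0 : 0 < c) (hc1 : c ≤ 1) (m : ℕ)
    (hE : ∀ p : ℝ × ℝ, MvPolynomial.eval ![p.1, p.2] P = 0 →
      MvPolynomial.eval ![p.1, p.2] Q = 0 → ∃ E : Finset ℝ, E.card ≤ m ∧
      ∀ r, 0 < r → (∀ ρ ∈ E, r ∉ Icc ρ (exp 1 * ρ)) → Ctl n P Q c p r) :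
    Maj (fun α => ((Cl P Q α).encard : ℝ≥0∞)) (n ^ 2 * (n + 1) * (8000 * m + 11 * n)) := by
  classical
  refine gen hP hQ hn hPQ hc0 hc1 m fun p hp => ?_
  obtain ⟨D, hD1, hD2⟩ := exists_parts' hP hQ p
  obtain ⟨E, hEc, hE'⟩ := hE p (congrArg Prod.fst hp) (congrArg Prod.snd hp)
  refine ⟨D, E.image log, Finset.card_image_le.trans hEc, fun u hu => ?_⟩
  refine gd_of_ctl hP hQ hn hD1 hD2 hc0 (hE' (exp u) (exp_pos u) fun ρ hρ hmem => ?_)
  have hρ0 : 0 < ρ := by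
    by_contra hcon
    push Not at hcon
    have h1 := hmem.2
    have h2 := exp_pos u
    have h3 := exp_pos 1
    nlinarith
  refine hu (log ρ) (Finset.mem_image_of_mem _ hρ) ⟨?_, ?_⟩
  · rw [Real.log_le_iff_le_exp hρ0]
    exact hmem.1
  · rw [← exp_le_exp, exp_add, exp_log hρ0, mul_comm]
    exact hmem.2

/-- a unit cover of an interval -/
lemma unit_cover (a b : ℝ) : ∃ E : Finset ℝ, (E.card : ℝ) ≤ max 0 (b - a) + 1 ∧
    ∀ u ∈ Icc a b, ∃ e ∈ E, u ∈ Icc e (e + 1) := by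
  classical
  set J : ℕ := ⌊max 0 (b - a)⌋₊ with hJ
  refine ⟨(Finset.range (J + 1)).image fun j : ℕ => a + (j:ℝ), ?_, fun u hu => ?_⟩
  · have h1 : (((Finset.range (J + 1)).image fun j : ℕ => a + (j:ℝ)).card : ℝ) ≤ (J + 1 : ℕ) := by
      have := Finset.card_image_le (s := Finset.range (J + 1)) (f := fun j : ℕ => a + (j:ℝ))
      rw [Finset.card_range] at this
      exact_mod_cast this
    refine h1.trans ?_
    push_cast
    have := Nat.floor_le (le_max_left 0 (b - a))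
    linarith
  · have h0 : 0 ≤ u - a := by linarith [hu.1]
    refine ⟨a + (⌊u - a⌋₊ : ℝ), Finset.mem_image.2 ⟨⌊u - a⌋₊, ?_, rfl⟩, ?_, ?_⟩
    · rw [Finset.mem_range, Nat.lt_succ_iff]
      exact Nat.floor_le_floor ((by linarith [hu.2] : u - a ≤ b - a).trans (le_max_right _ _))
    · have := Nat.floor_le h0
      linarith
    · have := Nat.lt_floor_add_one (u - a)
      linarith

/-- the windows around the breaks -/
lemma windows (D : Parts n P Q p) (hpos : ∃ k ∈ Finset.range (n + 1), 0 < D.m k) {c : ℝ}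
    (hs : 0 < log (2 * n / c)) (hW : Well D c) :
    ∃ E : Finset ℝ, (E.card : ℝ) ≤ n * (2 * log (2 * n / c) + 1) ∧
      ∀ u, (∀ e ∈ E, u ∉ Icc e (e + 1)) → Gd D c u := by
  classical
  obtain ⟨s, hs'⟩ : ∃ s, s = log (2 * n / c) := ⟨_, rfl⟩
  rw [← hs'] at hs
  have hone : ∀ b : ℝ, ∃ E : Finset ℝ, (E.card : ℝ) ≤ 2 * s + 1 ∧
      ∀ u ∈ Icc (b - s) (b + s), ∃ e ∈ E, u ∈ Icc e (e + 1) := by
    intro b
    obtain ⟨E, h1, h2⟩ := unit_cover (b - s) (b + s)
    refine ⟨E, h1.trans ?_, h2⟩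
    rw [max_eq_right (by linarith)]
    linarith
  choose F hF1 hF2 using hone
  refine ⟨(brks D).biUnion F, ?_, fun u hu => ?_⟩
  · have h1 : (((brks D).biUnion F).card : ℝ) ≤ ∑ b ∈ brks D, ((F b).card : ℝ) := by
      exact_mod_cast Finset.card_biUnion_le
    refine h1.trans ((Finset.sum_le_sum fun b _ => hF1 b).trans ?_)
    rw [Finset.sum_const, nsmul_eq_mul, ← hs']
    have h2 : ((brks D).card : ℝ) ≤ n := by exact_mod_cast card_brks D
    exact mul_le_mul_of_nonneg_right h2 (by linarith)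
  · have hfar : ∀ v ∈ ({u} : Set ℝ), ∀ b ∈ brks D, s < |v - b| := by
      rintro v rfl b hb
      by_contra hcon
      push Not at hcon
      have h1 := abs_le.1 hcon
      obtain ⟨e, he, hue⟩ := hF2 b v ⟨by linarith, by linarith⟩
      exact hu e (Finset.mem_biUnion.2 ⟨b, hb, he⟩) hue
    obtain ⟨k, hk, hm, hd⟩ := exists_dom' D hs ordConnected_singleton ⟨u, rfl⟩ hpos hfar
    have hd' := hd u rfl
    rw [hs'] at hd'
    exact ⟨k, hk, hm, hd', hW k hk hm ⟨u, hd'⟩⟩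

/-- well conditioned fields -/
theorem well' (hP : P.totalDegree ≤ n) (hQ : Q.totalDegree ≤ n) (hn : 1 ≤ n)
    (hPQ : IsRelPrime P Q) {c : ℝ} (hc0 : 0 < c) (hc1 : c ≤ 1)
    (hW : ∀ p : ℝ × ℝ, MvPolynomial.eval ![p.1, p.2] P = 0 → MvPolynomial.eval ![p.1, p.2] Q = 0 →
      ∀ (k : ℕ) (r : ℝ), 0 < r → (∀ j, j ≠ k →
        2 * n / c * (siz P Q p j * r ^ j) ≤ siz P Q p k * r ^ k) →
      ∀ θ, c * siz P Q p k ≤ prt P Q p k θ) :
    Maj (fun α => ((Cl P Q α).encard : ℝ≥0∞))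
      (16000 * (n ^ 3 * (n + 1)) * (1 + log (2 * n / c))) := by
  classical
  obtain ⟨Z, hZc, hZ⟩ := b3 n P Q hP hQ hPQ
  have hn' : (1:ℝ) ≤ n := by exact_mod_cast hn
  have hs : 0 < log (2 * n / c) := by
    apply Real.log_pos
    rw [lt_div_iff₀ hc0]
    linarith
  have h1 := gen hP hQ hn hPQ hc0 hc1 ⌊(n:ℝ) * (2 * log (2 * n / c) + 1)⌋₊ (fun p hp => by
    obtain ⟨D, hD1, hD2⟩ := exists_parts' hP hQ p
    have hWD : Well D c := by
      intro k hk hm hu θ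
      obtain ⟨u, hu⟩ := hu
      rw [hD1, hD2]
      refine hW p (congrArg Prod.fst hp) (congrArg Prod.snd hp) k (exp u) (exp_pos u) ?_ θ
      intro j hjk
      rcases le_or_gt j n with hj | hj
      · have h1 := hu j (Finset.mem_range.2 (by omega)) hjk
        rw [exp_neg_log hn hc0, hD2, hD2] at h1
        have hn' : (0:ℝ) < n := by exact_mod_cast hn
        have h2 := mul_le_mul_of_nonneg_left h1 (show (0:ℝ) ≤ 2 * n / c by positivity)
        calc 2 * n / c * (siz P Q p j * exp u ^ j) = 2 * n / c * (exp u ^ j * siz P Q p j) := by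
              ring
          _ ≤ _ := h2
          _ = siz P Q p k * exp u ^ k := by
            field_simp
      · rw [siz_zero hP hQ p hj, zero_mul, mul_zero]
        have := D.m_nonneg k
        rw [hD2] at this
        positivity
    obtain ⟨E, hE1, hE2⟩ := windows D (exists_pos D fun z hz => (hZ z).1 hz) hs hWD
    exact ⟨D, E, Nat.le_floor hE1, hE2⟩)
  refine Z1aux.maj_mono (fun _ _ => le_rfl) ?_ h1
  have h2 : ((⌊(n:ℝ) * (2 * log (2 * n / c) + 1)⌋₊ : ℕ) : ℝ) ≤ n * (2 * log (2 * n / c) + 1) :=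
    Nat.floor_le (by positivity)
  have h3 : (8000 * ((⌊(n:ℝ) * (2 * log (2 * n / c) + 1)⌋₊ : ℕ) : ℝ) + 11 * n) ≤
      16000 * n * (1 + log (2 * n / c)) := by nlinarith
  calc (n:ℝ) ^ 2 * (n + 1) * (8000 * ((⌊(n:ℝ) * (2 * log (2 * n / c) + 1)⌋₊ : ℕ) : ℝ) + 11 * n)
      ≤ (n:ℝ) ^ 2 * (n + 1) * (16000 * n * (1 + log (2 * n / c))) :=
        mul_le_mul_of_nonneg_left h3 (by positivity)
    _ = _ := by ring

end

end Pool.Agent.Q62.HU
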