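import Pool.Agent.Q62.HU.Pair
import Pool.Agent.Q62.HN.Var

/-! Counting the members of a family which is parametrised by an interval of length one. -/

open Real Set MeasureTheory Topology Filter
open scoped ENNReal

namespace Pool.Agent.Q62.HU

noncomputable section

open Pool.Agent.H709Q (Maj)

/-- the number of members with a given angle, off a set of angles `Hf` set to zero -/
def cnt {ι : Type*} (Hf : Set ℝ) (F : ℝ → Set ι) (α : ℝ) : ℝ≥0∞ :=
  Hf.indicator (fun α => ((F α).encard : ℝ≥0∞)) α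

/-- a family whose angle is a Lipschitz function of a parameter in an interval of length one -/
theorem maj_lip {ι : Type*} {Hf : Set ℝ} {F : ℝ → Set ι} (f : ι → ℝ) {K : ℝ} (hK : 0 ≤ K)
    (h1 : ∀ α ∈ Hf, ∀ β ∈ Hf, ∀ C ∈ F α, ∀ C' ∈ F β, C ≠ C' →
      f C ≠ f C' ∧ |β - α| ≤ K * |f C' - f C|)
    (h2 : ∀ α ∈ Hf, ∀ β ∈ Hf, ∀ C ∈ F α, C ∈ F β → α = β)
    (h3 : ∀ α ∈ Hf, ∀ β ∈ Hf, ∀ C ∈ F α, ∀ C' ∈ F β, |f C' - f C| ≤ 1) :
    Maj (cnt Hf F) K := by
  classical
  set E : Set ℝ := {x | ∃ α ∈ Hf, ∃ C ∈ F α, f C = x} with hE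
  have hex : ∀ x, ∃ α, x ∈ E → α ∈ Hf ∧ ∃ C ∈ F α, f C = x := by
    intro x
    by_cases hx : x ∈ E
    · obtain ⟨α, hα, C, hC, hf⟩ := hx
      exact ⟨α, fun _ => ⟨hα, C, hC, hf⟩⟩
    · exact ⟨0, fun h => absurd h hx⟩
  choose S hS using hex
  have huniq : ∀ α ∈ Hf, ∀ C ∈ F α, S (f C) = α := by
    intro α hα C hC
    obtain ⟨hβ, C', hC', hf⟩ := hS (f C) ⟨α, hα, C, hC, rfl⟩
    by_cases hne : C = C'
    · subst hne
      exact h2 _ hβ _ hα C hC' hC
    · exact absurd hf.symm (h1 α hα _ hβ C hC C' hC' hne).1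
  obtain ⟨g, hgm, hg, hgi⟩ := TH525.PU.majorant S E
  refine ⟨g, hgm, fun α _ => ?_, (setLIntegral_le_lintegral _ _).trans (hgi.trans ?_)⟩
  · unfold cnt
    by_cases hα : α ∈ Hf
    · rw [indicator_of_mem hα]
      refine le_trans ?_ (hg α)
      apply ENat.toENNReal_le.2
      have hinj : InjOn f (F α) := by
        intro C hC C' hC' hf
        by_contra hne
        exact (h1 α hα α hα C hC C' hC' hne).1 hf
      rw [← hinj.encard_image]
      apply encard_le_encard
      rintro _ ⟨C, hC, rfl⟩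
      exact ⟨⟨α, hα, C, hC, rfl⟩, huniq α hα C hC⟩
    · rw [indicator_of_notMem hα]
      exact bot_le
  · refine Q62.HN.var_le_of_pair (w := fun x => K * x) ?_ ?_
    · intro x hx y hy hxy
      obtain ⟨α, hα, C, hC, rfl⟩ := hx
      obtain ⟨β, hβ, C', hC', rfl⟩ := hy
      rw [huniq α hα C hC, huniq β hβ C' hC', ← mul_sub]
      by_cases hne : C = C'
      · subst hne
        rw [h2 α hα β hβ C hC hC', sub_self, sub_self, abs_zero, mul_zero]
      · have h4 := (h1 α hα β hβ C hC C' hC' hne).2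
        rwa [abs_of_nonneg (by linarith : 0 ≤ f C' - f C)] at h4
    · intro x hx y hy
      obtain ⟨α, hα, C, hC, rfl⟩ := hx
      obtain ⟨β, hβ, C', hC', rfl⟩ := hy
      rw [← mul_sub]
      have h4 := h3 α hα β hβ C hC C' hC'
      have h5 := le_abs_self (f C' - f C)
      nlinarith

/-- a family which is present for at most one angle -/
theorem maj_single {ι : Type*} {Hf : Set ℝ} {F : ℝ → Set ι}
    (h : ∀ α ∈ Hf, ∀ β ∈ Hf, (F α).Nonempty → (F β).Nonempty → α = β) :
    Maj (cnt Hf F) 0 := by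
  classical
  set A : Set ℝ := {α | α ∈ Hf ∧ (F α).Nonempty} with hA
  have hsub : A.Subsingleton := fun α hα β hβ => h α hα.1 β hβ.1 hα.2 hβ.2
  refine ⟨A.indicator fun _ => ⊤, measurable_const.indicator hsub.measurableSet, fun α _ => ?_, ?_⟩
  · unfold cnt
    by_cases hα : α ∈ Hf
    · rw [indicator_of_mem hα]
      rcases (F α).eq_empty_or_nonempty with h0 | h0
      · rw [h0]
        simp
      · rw [indicator_of_mem (show α ∈ A from ⟨hα, h0⟩)]
        exact le_top
    · rw [indicator_of_notMem hα]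
      exact bot_le
  · refine (setLIntegral_le_lintegral _ _).trans ?_
    rw [lintegral_indicator hsub.measurableSet, setLIntegral_const,
      (hsub.countable).measure_zero, mul_zero]
    exact bot_le

end

end Pool.Agent.Q62.HU
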