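import Pool.Agent.Q62.HU.Zone

/-! The direction of the field where one homogeneous part dominates. -/

open Real Set MeasureTheory Topology Filter

namespace Pool.Agent.Q62.HU

noncomputable section

open Pool.Agent.H709R2 (rot wedge field ClosedOrbit)
open Pool.Agent.H709U Pool.Agent.W960.HQ

variable {n : ℕ} {P Q : MvPolynomial (Fin 2) ℝ} {p : ℝ × ℝ}

/-- the homogeneous part as a complex number -/
def ap (D : Parts n P Q p) (j : ℕ) (θ : ℝ) : ℂ := ec (form (D.a j) θ, form (D.b j) θ)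

lemma norm_ap (D : Parts n P Q p) (j : ℕ) (θ : ℝ) : ‖ap D j θ‖ = √(D.q j θ) := by
  rw [← Real.sqrt_sq (norm_nonneg (ap D j θ))]
  unfold ap
  rw [norm_ec]
  rfl

lemma ec_field (D : Parts n P Q p) (u θ : ℝ) : ec (field P Q (pt p u θ)) =
    ∑ j ∈ Finset.range (n + 1), (exp u ^ j) • ap D j θ := by
  rw [D.eq u θ]
  apply Complex.ext
  · rw [ec_re, Complex.re_sum]
    show ∑ j ∈ Finset.range (n + 1), exp u ^ j * form (D.a j) θ = _
    refine Finset.sum_congr rfl fun j _ => ?_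
    rw [Complex.smul_re, ap, ec_re, smul_eq_mul]
  · rw [ec_im, Complex.im_sum]
    show ∑ j ∈ Finset.range (n + 1), exp u ^ j * form (D.b j) θ = _
    refine Finset.sum_congr rfl fun j _ => ?_
    rw [Complex.smul_im, ap, ec_im, smul_eq_mul]

/-- the field divided by the size of the dominating monomial -/
def Xh (D : Parts n P Q p) (k : ℕ) (u θ : ℝ) : ℂ :=
  ∑ j ∈ Finset.range (n + 1), exp (((j:ℝ) - k) * u) • ap D j θ

lemma Xh_eq (D : Parts n P Q p) (k : ℕ) (u θ : ℝ) :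
    Xh D k u θ = exp (-(k * u)) • ec (field P Q (pt p u θ)) := by
  rw [ec_field D, Finset.smul_sum]
  refine Finset.sum_congr rfl fun j _ => ?_
  rw [smul_smul, ← exp_nat_mul, ← exp_add]
  congr 2
  ring

lemma dom_exp (D : Parts n P Q p) {s : ℝ} {k : ℕ} {u : ℝ} (hd : D.Dom s k u) {j : ℕ}
    (hj : j ∈ Finset.range (n + 1)) (hjk : j ≠ k) :
    exp (((j:ℝ) - k) * u) * D.m j ≤ exp (-s) * D.m k := by
  have h1 := hd j hj hjk
  have h2 : exp (((j:ℝ) - k) * u) = exp (-(k * u)) * exp u ^ j := by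
    rw [← exp_nat_mul, ← exp_add]
    congr 1
    ring
  have h3 : exp (-(k * u)) * exp u ^ k = 1 := by
    rw [← exp_nat_mul, ← exp_add, neg_add_cancel, exp_zero]
  calc exp (((j:ℝ) - k) * u) * D.m j = exp (-(k * u)) * (exp u ^ j * D.m j) := by rw [h2]; ring
    _ ≤ exp (-(k * u)) * (exp (-s) * (exp u ^ k * D.m k)) :=
      mul_le_mul_of_nonneg_left h1 (exp_pos _).le
    _ = (exp (-(k * u)) * exp u ^ k) * (exp (-s) * D.m k) := by ring
    _ = exp (-s) * D.m k := by rw [h3, one_mul]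

lemma Xh_near (D : Parts n P Q p) {s : ℝ} {k : ℕ} (hk : k ∈ Finset.range (n + 1)) {u : ℝ}
    (hd : D.Dom s k u) (θ : ℝ) : ‖Xh D k u θ - ap D k θ‖ ≤ n * exp (-s) * D.m k := by
  classical
  unfold Xh
  rw [← Finset.add_sum_erase _ _ hk, sub_self, zero_mul, exp_zero, one_smul, add_sub_cancel_left]
  refine (norm_sum_le _ _).trans ?_
  have h1 : ∀ j ∈ (Finset.range (n + 1)).erase k,
      ‖exp (((j:ℝ) - k) * u) • ap D j θ‖ ≤ exp (-s) * D.m k := by
    intro j hj
    rw [norm_smul, Real.norm_of_nonneg (exp_pos _).le, norm_ap]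
    exact (mul_le_mul_of_nonneg_left (D.sqrt_q_le j θ) (exp_pos _).le).trans
      (dom_exp D hd (Finset.mem_of_mem_erase hj) (Finset.ne_of_mem_erase hj))
  refine (Finset.sum_le_sum h1).trans (le_of_eq ?_)
  rw [Finset.sum_const, Finset.card_erase_of_mem hk, Finset.card_range, nsmul_eq_mul]
  simp only [Nat.add_sub_cancel]
  ring

lemma exp_sub_le (x y : ℝ) : |exp x - exp y| ≤ |x - y| * max (exp x) (exp y) := by
  wlog h : y ≤ x with H
  · have := H y x (le_of_not_ge h)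
    rwa [abs_sub_comm (exp y), abs_sub_comm y, max_comm] at this
  have h1 : exp y ≤ exp x := exp_le_exp.2 h
  rw [abs_of_nonneg (by linarith), abs_of_nonneg (by linarith), max_eq_left h1]
  have h2 : exp y = exp x * exp (-(x - y)) := by
    rw [← exp_add]
    congr 1
    ring
  have h3 := add_one_le_exp (-(x - y))
  have h4 := exp_pos x
  rw [h2]
  nlinarith

lemma Xh_lip (D : Parts n P Q p) {s : ℝ} {k : ℕ} (hk : k ∈ Finset.range (n + 1)) {u v : ℝ}
    (hu : D.Dom s k u) (hv : D.Dom s k v) (θ : ℝ) :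
    ‖Xh D k v θ - Xh D k u θ‖ ≤ n ^ 2 * exp (-s) * |v - u| * D.m k := by
  classical
  unfold Xh
  rw [← Finset.sum_sub_distrib, ← Finset.add_sum_erase _ _ hk, sub_self, zero_mul, zero_mul,
    sub_self, zero_add]
  refine (norm_sum_le _ _).trans ?_
  have h1 : ∀ j ∈ (Finset.range (n + 1)).erase k,
      ‖exp (((j:ℝ) - k) * v) • ap D j θ - exp (((j:ℝ) - k) * u) • ap D j θ‖ ≤
        n * (|v - u| * (exp (-s) * D.m k)) := by
    intro j hj
    have hj' := Finset.mem_of_mem_erase hj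
    have hjk := Finset.ne_of_mem_erase hj
    rw [← sub_smul, norm_smul, Real.norm_eq_abs, norm_ap]
    have h2 := exp_sub_le (((j:ℝ) - k) * v) (((j:ℝ) - k) * u)
    have h3 : |((j:ℝ) - k) * v - ((j:ℝ) - k) * u| ≤ n * |v - u| := by
      rw [← mul_sub, abs_mul]
      refine mul_le_mul_of_nonneg_right ?_ (abs_nonneg _)
      rw [Finset.mem_range] at hj' hk
      have h4 : (j:ℝ) ≤ n := by exact_mod_cast Nat.lt_succ_iff.1 hj'
      have h5 : (k:ℝ) ≤ n := by exact_mod_cast Nat.lt_succ_iff.1 hk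
      have h6 : (0:ℝ) ≤ j := Nat.cast_nonneg j
      have h7 : (0:ℝ) ≤ k := Nat.cast_nonneg k
      rw [abs_le]
      constructor <;> linarith
    have h4 : max (exp (((j:ℝ) - k) * v)) (exp (((j:ℝ) - k) * u)) * D.m j ≤ exp (-s) * D.m k := by
      rw [max_mul_of_nonneg _ _ (D.m_nonneg j)]
      exact max_le (dom_exp D hv hj' hjk) (dom_exp D hu hj' hjk)
    calc |exp (((j:ℝ) - k) * v) - exp (((j:ℝ) - k) * u)| * √(D.q j θ)
        ≤ (|((j:ℝ) - k) * v - ((j:ℝ) - k) * u| *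
          max (exp (((j:ℝ) - k) * v)) (exp (((j:ℝ) - k) * u))) * D.m j := by
          refine mul_le_mul h2 (D.sqrt_q_le j θ) (Real.sqrt_nonneg _) ?_
          positivity
      _ = |((j:ℝ) - k) * v - ((j:ℝ) - k) * u| *
          (max (exp (((j:ℝ) - k) * v)) (exp (((j:ℝ) - k) * u)) * D.m j) := by ring
      _ ≤ (n * |v - u|) * (exp (-s) * D.m k) := by
          refine mul_le_mul h3 h4 ?_ (by positivity)
          have := D.m_nonneg j
          positivity
      _ = n * (|v - u| * (exp (-s) * D.m k)) := by ring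
  refine (Finset.sum_le_sum h1).trans (le_of_eq ?_)
  rw [Finset.sum_const, Finset.card_erase_of_mem hk, Finset.card_range, nsmul_eq_mul]
  simp only [Nat.add_sub_cancel]
  ring

/-- the lower bound for the dominating part in all directions -/
def Def (D : Parts n P Q p) (c : ℝ) (k : ℕ) : Prop := ∀ θ, c * D.m k ≤ √(D.q k θ)

lemma Xh_lower (D : Parts n P Q p) {s c : ℝ} {k : ℕ} (hk : k ∈ Finset.range (n + 1)) {u : ℝ}
    (hd : D.Dom s k u) (hc : Def D c k) (hs : n * exp (-s) ≤ c / 2) (θ : ℝ) :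
    c / 2 * D.m k ≤ ‖Xh D k u θ‖ := by
  have h1 := Xh_near D hk hd θ
  have h2 := hc θ
  rw [← norm_ap] at h2
  have h3 : ‖ap D k θ‖ ≤ ‖Xh D k u θ‖ + ‖Xh D k u θ - ap D k θ‖ := by
    have := norm_sub_le (Xh D k u θ) (Xh D k u θ - ap D k θ)
    rwa [sub_sub_cancel] at this
  have h4 := mul_le_mul_of_nonneg_right hs (D.m_nonneg k)
  linarith

/-- the field does not vanish -/
lemma field_ne (D : Parts n P Q p) {s c : ℝ} {k : ℕ} (hk : k ∈ Finset.range (n + 1))
    (hm : 0 < D.m k) {z : ℝ × ℝ} (hz : z ≠ p) (hd : D.Dom s k (lg p z)) (hc0 : 0 < c)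
    (hc : Def D c k) (hs : n * exp (-s) ≤ c / 2) : field P Q z ≠ 0 := by
  intro h0
  obtain ⟨θ, hθ⟩ := exists_pt hz
  have h1 := Xh_lower D hk hd hc hs θ
  rw [Xh_eq, ← hθ, h0, map_zero, smul_zero, norm_zero] at h1
  have : 0 < c / 2 * D.m k := by positivity
  linarith

lemma sin_of_wg {x y : ℂ} {α β : ℝ} (hx : x ≠ 0)
    (h : wg (Complex.exp (α * Complex.I) * x) (Complex.exp (β * Complex.I) * y) = 0) :
    |Real.sin (β - α)| * ‖y‖ ≤ ‖y - x‖ := by
  -- in real coordinates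
  have hA : wg (Complex.exp (α * Complex.I) * x) (Complex.exp (β * Complex.I) * y) =
      Real.cos (β - α) * (x.re * y.im - x.im * y.re) +
        Real.sin (β - α) * (x.re * y.re + x.im * y.im) := by
    unfold wg
    simp only [Complex.mul_re, Complex.mul_im, Complex.exp_ofReal_mul_I_re,
      Complex.exp_ofReal_mul_I_im]
    rw [Real.cos_sub, Real.sin_sub]
    ring
  rw [hA] at h
  set w := Real.sin (β - α)
  set v := Real.cos (β - α)
  have hwv : w ^ 2 + v ^ 2 = 1 := Real.sin_sq_add_cos_sq _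
  have hx0 : 0 < ‖x‖ := norm_pos_iff.2 hx
  have e1 : ‖x‖ ^ 2 = x.re * x.re + x.im * x.im := by
    rw [Complex.sq_norm, Complex.normSq_apply]
  have e2 : ‖y‖ ^ 2 = y.re * y.re + y.im * y.im := by
    rw [Complex.sq_norm, Complex.normSq_apply]
  have e3 : ‖y - x‖ ^ 2 = (y.re - x.re) * (y.re - x.re) + (y.im - x.im) * (y.im - x.im) := by
    rw [Complex.sq_norm, Complex.normSq_apply, Complex.sub_re, Complex.sub_im]
  have h1 : (w * ‖y‖ * ‖x‖) ^ 2 = (x.re * y.im - x.im * y.re) ^ 2 := by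
    have h2 : (w * ‖y‖ * ‖x‖) ^ 2 = w ^ 2 * ((x.re * y.re + x.im * y.im) ^ 2 +
        (x.re * y.im - x.im * y.re) ^ 2) := by
      rw [mul_pow, mul_pow, e1, e2]
      ring
    have h3 : w * (x.re * y.re + x.im * y.im) = -(v * (x.re * y.im - x.im * y.re)) := by
      linarith
    have h4 : w ^ 2 * (x.re * y.re + x.im * y.im) ^ 2 =
        v ^ 2 * (x.re * y.im - x.im * y.re) ^ 2 := by
      rw [← mul_pow, h3, neg_sq, mul_pow]
    rw [h2, mul_add, h4, ← add_mul, add_comm (v ^ 2), hwv, one_mul]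
  have h2 : (x.re * y.im - x.im * y.re) ^ 2 ≤ (‖x‖ * ‖y - x‖) ^ 2 := by
    rw [mul_pow, e1, e3]
    nlinarith [sq_nonneg (x.re * (y.re - x.re) + x.im * (y.im - x.im))]
  have h3 : |w| * ‖y‖ * ‖x‖ ≤ ‖x‖ * ‖y - x‖ := by
    have h5 : |w * ‖y‖ * ‖x‖| ≤ ‖x‖ * ‖y - x‖ :=
      abs_le_of_sq_le_sq (h1.le.trans h2) (by positivity)
    rwa [abs_mul, abs_mul, abs_of_nonneg (norm_nonneg y), abs_of_nonneg (norm_nonneg x)] at h5
  have h4 : |w| * ‖y‖ * ‖x‖ ≤ ‖y - x‖ * ‖x‖ := by rw [mul_comm ‖y - x‖]; exact h3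
  exact le_of_mul_le_mul_right h4 hx0

/-- **Comparison of directions.** Two rotated fields which are parallel at two points of the same
ray have nearly the same angle of rotation. -/
theorem sin_le (D : Parts n P Q p) {s c : ℝ} {k : ℕ} (hk : k ∈ Finset.range (n + 1))
    (hm : 0 < D.m k) {u v θ : ℝ} (hu : D.Dom s k u) (hv : D.Dom s k v) (hc0 : 0 < c)
    (hc : Def D c k) (hs : n * exp (-s) ≤ c / 2) {α β : ℝ}
    (h : wg (ec (rf (field P Q) α (pt p u θ))) (ec (rf (field P Q) β (pt p v θ))) = 0) :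
    |Real.sin (β - α)| ≤ 2 * n ^ 2 / c * exp (-s) * |v - u| := by
  have h1 : wg (Complex.exp (α * Complex.I) * Xh D k u θ)
      (Complex.exp (β * Complex.I) * Xh D k v θ) = 0 := by
    unfold rf at h
    rw [ec_rot, ec_rot] at h
    rw [Xh_eq, Xh_eq, mul_smul_comm, mul_smul_comm]
    generalize Complex.exp (α * Complex.I) * ec (field P Q (pt p u θ)) = A at h ⊢
    generalize Complex.exp (β * Complex.I) * ec (field P Q (pt p v θ)) = B at h ⊢
    unfold wg at h ⊢
    simp only [Complex.smul_re, Complex.smul_im, smul_eq_mul]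
    linear_combination (exp (-(k * u)) * exp (-(k * v))) * h
  have h2 := Xh_lower D hk hu hc hs θ
  have h3 := Xh_lower D hk hv hc hs θ
  have hpos : 0 < c / 2 * D.m k := by positivity
  have h4 := sin_of_wg (norm_pos_iff.1 (hpos.trans_le h2)) h1
  have h5 := Xh_lip D hk hu hv θ
  have h6 : |Real.sin (β - α)| * (c / 2 * D.m k) ≤ n ^ 2 * exp (-s) * |v - u| * D.m k :=
    (mul_le_mul_of_nonneg_left h3 (abs_nonneg _)).trans (h4.trans h5)
  have h7 : (|Real.sin (β - α)| * (c / 2)) * D.m k ≤ (n ^ 2 * exp (-s) * |v - u|) * D.m k := by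
    linarith
  have h8 := le_of_mul_le_mul_right h7 hm
  have h9 : 2 * n ^ 2 / c * exp (-s) * |v - u| = (n ^ 2 * exp (-s) * |v - u|) * (2 / c) := by
    ring
  rw [h9]
  calc |Real.sin (β - α)| = (|Real.sin (β - α)| * (c / 2)) * (2 / c) := by field_simp
    _ ≤ _ := mul_le_mul_of_nonneg_right h8 (by positivity)

/-- for angles in the same half -/
theorem ang_le (D : Parts n P Q p) {s c : ℝ} {k : ℕ} (hk : k ∈ Finset.range (n + 1))
    (hm : 0 < D.m k) {u v θ : ℝ} (hu : D.Dom s k u) (hv : D.Dom s k v) (hc0 : 0 < c)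
    (hc : Def D c k) (hs : n * exp (-s) ≤ c / 2) {α β : ℝ} (hαβ : |β - α| ≤ π / 2)
    (h : wg (ec (rf (field P Q) α (pt p u θ))) (ec (rf (field P Q) β (pt p v θ))) = 0) :
    |β - α| ≤ π * n ^ 2 / c * exp (-s) * |v - u| := by
  have h1 := sin_le D hk hm hu hv hc0 hc hs h
  have hπ := Real.pi_pos
  have h2 : 2 / π * |β - α| ≤ |Real.sin (β - α)| := by
    have h3 := Real.mul_le_sin (abs_nonneg (β - α)) hαβ
    refine h3.trans ?_
    rcases abs_cases (β - α) with ⟨h4, -⟩ | ⟨h4, -⟩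
    · rw [h4]; exact le_abs_self _
    · rw [h4, Real.sin_neg]; exact neg_le_abs _
  have h3 : π * n ^ 2 / c * exp (-s) * |v - u| =
      (π / 2) * (2 * n ^ 2 / c * exp (-s) * |v - u|) := by ring
  rw [h3]
  calc |β - α| = (π / 2) * (2 / π * |β - α|) := by field_simp
    _ ≤ _ := mul_le_mul_of_nonneg_left (h2.trans h1) (by positivity)

end

end Pool.Agent.Q62.HU
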