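import Pool.Agent.Q62.HU.Cor

/-! Integrability: only the first and the last homogeneous parts matter. -/

open Real Set MeasureTheory Topology Filter
open scoped ENNReal

namespace Pool.Agent.Q62.HU

noncomputable section

open Pool.Agent.H709R2 (rot wedge field ClosedOrbit)
open Pool.Agent.H709U Pool.Agent.W960.HQ
open Pool.Agent.H709Q (Maj majRules)

variable {n : ℕ} {P Q : MvPolynomial (Fin 2) ℝ} {p : ℝ × ℝ}

/-- the first part dominates on small scales -/
lemma first_dom (D : Parts n P Q p) {k : ℕ} (hm : 0 < D.m k) (hlow : ∀ j < k, D.m j = 0) (s : ℝ)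
    (hs : 0 < s) : ∃ a : ℝ, ∀ u ≤ a, D.Dom s k u := by
  obtain ⟨v, j', hj', hv⟩ := brk_nonempty D (j := k) (k := k + 1) (Nat.lt_succ_self k) hm
  refine ⟨v - s, fun u hu j hj hjk => ?_⟩
  rcases lt_or_gt_of_ne hjk with h | h
  · rw [hlow j h, mul_zero]
    positivity
  · have h1 := hv j hj h
    have h2 : exp v ^ j' * D.m j' ≤ exp v ^ k * D.m k := by
      rcases (Nat.lt_succ_iff.1 hj').eq_or_lt with h3 | h3
      · rw [h3]
      · rw [hlow j' h3, mul_zero]
        positivity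
    have h3 := shift_dn (u := u) hm.le h (by linarith) (h1.trans h2)
    exact h3.trans (mul_le_mul_of_nonneg_right (exp_le_exp.2 (by linarith)) (by positivity))

/-- the last part dominates on large scales -/
lemma last_dom (D : Parts n P Q p) {k : ℕ} (hk : k ∈ Finset.range (n + 1)) (hm : 0 < D.m k)
    (hhigh : ∀ j, k < j → D.m j = 0) (s : ℝ) (hs : 0 < s) : ∃ b : ℝ, ∀ u, b ≤ u → D.Dom s k u := by
  obtain ⟨B, hB⟩ := bdd_brk D hk le_rfl hm
  refine ⟨B + 1 + s, fun u hu j hj hjk => ?_⟩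
  have hnot : B + 1 ∉ brk D k := fun h => by
    have := hB h
    linarith
  rcases lt_or_gt_of_ne hjk with h | h
  · have h1 : ∃ i ∈ Finset.range (n + 1), k ≤ i ∧
        exp (B + 1) ^ j * D.m j < exp (B + 1) ^ i * D.m i := by
      by_contra hcon
      push Not at hcon
      exact hnot ⟨j, h, fun i hi hki => hcon i hi hki⟩
    obtain ⟨i, hi, hki, hlt⟩ := h1
    have h2 : i = k := by
      rcases hki.eq_or_lt with h3 | h3
      · exact h3.symm
      · rw [hhigh i h3, mul_zero] at hlt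
        have : 0 ≤ exp (B + 1) ^ j * D.m j := mul_nonneg (by positivity) (D.m_nonneg j)
        linarith
    rw [h2] at hlt
    have h3 := shift_up (u := u) hm.le h (by linarith) hlt.le
    exact h3.trans (mul_le_mul_of_nonneg_right (exp_le_exp.2 (by linarith)) (by positivity))
  · rw [hhigh j h, mul_zero]
    positivity

/-- a part without zeros on the circle is large in all directions -/
lemma def_of_ne (D : Parts n P Q p) {k : ℕ} (h : ∀ θ, √(D.q k θ) ≠ 0) :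
    ∃ c : ℝ, 0 < c ∧ c ≤ 1 ∧ Def D c k := by
  have hc : Continuous fun θ => √(D.q k θ) :=
    (((E2.form_continuous (D.a k)).pow 2).add ((E2.form_continuous (D.b k)).pow 2)).sqrt
  obtain ⟨β, hβ, hmin⟩ := (isCompact_Icc (a := (0:ℝ)) (b := 2 * π)).exists_isMinOn
    (nonempty_Icc.mpr (by positivity : (0 : ℝ) ≤ 2 * π)) hc.continuousOn
  have hall : ∀ θ, √(D.q k β) ≤ √(D.q k θ) := by
    intro θ
    have hper : Function.Periodic (fun θ => √(D.q k θ)) (2 * π) := by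
      intro x
      simp only [Parts.q]
      rw [E2.form_periodic (D.a k) x, E2.form_periodic (D.b k) x]
    obtain ⟨y, hy, hy2⟩ := hper.exists_mem_Ico₀ (by positivity) θ
    replace hy2 : √(D.q k θ) = √(D.q k y) := hy2
    rw [hy2]
    exact hmin (Ico_subset_Icc_self hy)
  have hb0 : 0 < √(D.q k β) := by
    rcases (Real.sqrt_nonneg (D.q k β)).eq_or_lt with h' | h'
    · exact absurd h'.symm (h β)
    · exact h'
  have hb1 : √(D.q k β) ≤ D.m k := D.sqrt_q_le k β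
  have hm : 0 < D.m k := hb0.trans_le hb1
  refine ⟨√(D.q k β) / D.m k, by positivity, (div_le_one hm).2 hb1, fun θ => ?_⟩
  rw [div_mul_cancel₀ _ hm.ne']
  exact hall θ

lemma Def.mono {D : Parts n P Q p} {c c' : ℝ} {k : ℕ} (h : Def D c k) (hc : c' ≤ c) :
    Def D c' k := fun θ => (mul_le_mul_of_nonneg_right hc (D.m_nonneg k)).trans (h θ)

/-- the first and the last part at a point -/
lemma ends (D : Parts n P Q p) (hpos : ∃ k ∈ Finset.range (n + 1), 0 < D.m k)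
    (htop : ∀ j, n < j → D.m j = 0)
    (h0 : ∀ k, 0 < D.m k → (∀ j < k, D.m j = 0) → ∀ θ, √(D.q k θ) ≠ 0)
    (h1 : ∀ k, 0 < D.m k → (∀ j, k < j → D.m j = 0) → ∀ θ, √(D.q k θ) ≠ 0) :
    ∃ c : ℝ, 0 < c ∧ c ≤ 1 ∧ ∀ c', 0 < c' → c' ≤ c → 0 < log (2 * n / c') →
      ∃ E : Finset ℝ, ∀ u, (∀ e ∈ E, u ∉ Icc e (e + 1)) → Gd D c' u := by
  classical
  obtain ⟨k₀, hk₀⟩ : ∃ k, 0 < D.m k ∧ ∀ j < k, D.m j = 0 := by
    have hex : ∃ k, 0 < D.m k := by
      obtain ⟨k, -, hk⟩ := hpos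
      exact ⟨k, hk⟩
    refine ⟨Nat.find hex, Nat.find_spec hex, fun j hj => ?_⟩
    have := Nat.find_min hex hj
    push Not at this
    exact le_antisymm this (D.m_nonneg j)
  obtain ⟨k₁, hk₁n, hk₁⟩ : ∃ k ∈ Finset.range (n + 1), 0 < D.m k ∧ ∀ j, k < j → D.m j = 0 := by
    obtain ⟨k, hk, hmax⟩ := Finset.exists_max_image
      ((Finset.range (n + 1)).filter fun k => 0 < D.m k) id (by
        obtain ⟨k, hk, hk'⟩ := hpos
        exact ⟨k, Finset.mem_filter.2 ⟨hk, hk'⟩⟩)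
    rw [Finset.mem_filter] at hk
    refine ⟨k, hk.1, hk.2, fun j hj => ?_⟩
    by_contra hcon
    have h3 : 0 < D.m j := lt_of_le_of_ne (D.m_nonneg j) (Ne.symm hcon)
    have h4 : j ∈ Finset.range (n + 1) := by
      rw [Finset.mem_range]
      by_contra h5
      exact hcon (htop j (by omega))
    have h5 := hmax j (Finset.mem_filter.2 ⟨h4, h3⟩)
    simp only [id] at h5
    omega
  have hk₀n : k₀ ∈ Finset.range (n + 1) := by
    rw [Finset.mem_range]
    by_contra h5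
    have := htop k₀ (by omega)
    rw [this] at hk₀
    exact lt_irrefl _ hk₀.1
  obtain ⟨c₀, hc₀, hc₀1, hd₀⟩ := def_of_ne D (h0 k₀ hk₀.1 hk₀.2)
  obtain ⟨c₁, hc₁, hc₁1, hd₁⟩ := def_of_ne D (h1 k₁ hk₁.1 hk₁.2)
  refine ⟨min c₀ c₁, lt_min hc₀ hc₁, (min_le_left _ _).trans hc₀1, fun c' hc' hle hs => ?_⟩
  obtain ⟨a, ha⟩ := first_dom D hk₀.1 hk₀.2 _ hs
  obtain ⟨b, hb⟩ := last_dom D hk₁n hk₁.1 hk₁.2 _ hs
  obtain ⟨E, -, hE⟩ := unit_cover a b
  refine ⟨E, fun u hu => ?_⟩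
  rcases le_total u a with h | h
  · exact ⟨k₀, hk₀n, hk₀.1, ha u h, hd₀.mono (hle.trans (min_le_left _ _))⟩
  · rcases le_total b u with h' | h'
    · exact ⟨k₁, hk₁n, hk₁.1, hb u h', hd₁.mono (hle.trans (min_le_right _ _))⟩
    · exfalso
      obtain ⟨e, he, hue⟩ := hE u ⟨h, h'⟩
      exact hu e he hue

/-- **Integrability.** -/
theorem integrable (hP : P.totalDegree ≤ n) (hQ : Q.totalDegree ≤ n) (hn : 1 ≤ n)
    (hPQ : IsRelPrime P Q)
    (hdef : ∀ p : ℝ × ℝ, MvPolynomial.eval ![p.1, p.2] P = 0 →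
      MvPolynomial.eval ![p.1, p.2] Q = 0 → ∀ k, siz P Q p k ≠ 0 →
      ((∀ j < k, siz P Q p j = 0) ∨ ∀ j, k < j → siz P Q p j = 0) → ∀ θ, prt P Q p k θ ≠ 0) :
    ∃ B : ℝ, 0 ≤ B ∧ Maj (fun α => ((Cl P Q α).encard : ℝ≥0∞)) B := by
  classical
  obtain ⟨Z, hZc, hZ⟩ := b3 n P Q hP hQ hPQ
  have hn' : (1:ℝ) ≤ n := by exact_mod_cast hn
  have key : ∀ p : ℝ × ℝ, ∃ (D : Parts n P Q p) (c : ℝ), 0 < c ∧ c ≤ 1 ∧ (p ∈ Z →
      ∀ c', 0 < c' → c' ≤ c → 0 < log (2 * n / c') →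
      ∃ E : Finset ℝ, ∀ u, (∀ e ∈ E, u ∉ Icc e (e + 1)) → Gd D c' u) := by
    intro p
    obtain ⟨D, hD1, hD2⟩ := exists_parts' hP hQ p
    by_cases hp : p ∈ Z
    · have hp0 := (hZ p).2 hp
      have hpos' : ∀ j, 0 < D.m j → siz P Q p j ≠ 0 := fun j hj => by
        rw [← hD2]
        exact hj.ne'
      obtain ⟨c, hc0, hc1, hc⟩ := ends D (exists_pos D fun z hz => (hZ z).1 hz)
        (fun j hj => by rw [hD2]; exact siz_zero hP hQ p hj)
        (fun k hk hlow θ => by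
          rw [hD1]
          exact hdef p (congrArg Prod.fst hp0) (congrArg Prod.snd hp0) k (hpos' k hk)
            (Or.inl fun j hj => by rw [← hD2]; exact hlow j hj) θ)
        (fun k hk hhigh θ => by
          rw [hD1]
          exact hdef p (congrArg Prod.fst hp0) (congrArg Prod.snd hp0) k (hpos' k hk)
            (Or.inr fun j hj => by rw [← hD2]; exact hhigh j hj) θ)
      exact ⟨D, c, hc0, hc1, fun _ => hc⟩
    · exact ⟨D, 1, one_pos, le_rfl, fun h => absurd h hp⟩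
  choose D c hc0 hc1 hc using key
  have hex : ∀ S : Finset (ℝ × ℝ), ∃ m : ℝ, 0 < m ∧ m ≤ 1 ∧ ∀ q ∈ S, m ≤ c q := by
    intro S
    induction S using Finset.induction_on with
    | empty => exact ⟨1, one_pos, le_rfl, by simp⟩
    | insert a s ha ih =>
      obtain ⟨m, hm0, hm1, hm⟩ := ih
      refine ⟨min m (c a), lt_min hm0 (hc0 a), (min_le_left _ _).trans hm1, fun q hq => ?_⟩
      rcases Finset.mem_insert.1 hq with rfl | hq
      · exact min_le_right _ _
      · exact (min_le_left _ _).trans (hm q hq)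
  obtain ⟨c', hc'0, hc'1, hc'⟩ := hex Z
  have hs : 0 < log (2 * n / c') := by
    apply Real.log_pos
    rw [lt_div_iff₀ hc'0]
    linarith
  have h2 : ∀ p : ℝ × ℝ, ∃ E : Finset ℝ, p ∈ Z →
      ∀ u, (∀ e ∈ E, u ∉ Icc e (e + 1)) → Gd (D p) c' u := by
    intro p
    by_cases hp : p ∈ Z
    · obtain ⟨E, hE⟩ := hc p hp c' hc'0 (hc' p hp) hs
      exact ⟨E, fun _ => hE⟩
    · exact ⟨∅, fun h => absurd h hp⟩
  choose E hE using h2
  refine ⟨_, ?_, gen hP hQ hn hPQ hc'0 hc'1 (Z.sup fun p => (E p).card) fun p hp => ?_⟩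
  · positivity
  · have hpZ := (hZ p).1 hp
    exact ⟨D p, E p, Finset.le_sup (f := fun p => (E p).card) hpZ, hE p hpZ⟩

end

end Pool.Agent.Q62.HU
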