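import Pool.Agent.Q62.HU.Class

/-! The scales at which the dominating part changes: there are at most `n` of them. -/

open Real Set MeasureTheory Topology Filter
open scoped ENNReal

namespace Pool.Agent.Q62.HU

noncomputable section

open Pool.Agent.H709R2 (rot wedge field ClosedOrbit)
open Pool.Agent.H709U Pool.Agent.W960.HQ

variable {n : ℕ} {P Q : MvPolynomial (Fin 2) ℝ} {p : ℝ × ℝ}

lemma shift_up {a b u v : ℝ} {j k : ℕ} (hb : 0 ≤ b) (hjk : j < k) (huv : v ≤ u)
    (h : exp v ^ j * a ≤ exp v ^ k * b) :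
    exp u ^ j * a ≤ exp (-(u - v)) * (exp u ^ k * b) := by
  have e1 : exp u = exp (u - v) * exp v := by rw [← exp_add]; congr 1; ring
  have e2 : exp (u - v) ^ j ≤ exp (-(u - v)) * exp (u - v) ^ k := by
    rw [← exp_nat_mul, ← exp_nat_mul, ← exp_add, exp_le_exp]
    have : (j:ℝ) + 1 ≤ k := by exact_mod_cast hjk
    nlinarith
  have h1 : 0 ≤ exp v ^ k * b := by positivity
  calc exp u ^ j * a = exp (u - v) ^ j * (exp v ^ j * a) := by rw [e1, mul_pow]; ring
    _ ≤ exp (u - v) ^ j * (exp v ^ k * b) := mul_le_mul_of_nonneg_left h (by positivity)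
    _ ≤ (exp (-(u - v)) * exp (u - v) ^ k) * (exp v ^ k * b) := mul_le_mul_of_nonneg_right e2 h1
    _ = exp (-(u - v)) * ((exp (u - v) * exp v) ^ k * b) := by rw [mul_pow]; ring
    _ = _ := by rw [← e1]

lemma shift_dn {a b u v : ℝ} {j k : ℕ} (hb : 0 ≤ b) (hjk : k < j) (huv : u ≤ v)
    (h : exp v ^ j * a ≤ exp v ^ k * b) :
    exp u ^ j * a ≤ exp (-(v - u)) * (exp u ^ k * b) := by
  have e1 : exp u = exp (u - v) * exp v := by rw [← exp_add]; congr 1; ring
  have e2 : exp (u - v) ^ j ≤ exp (-(v - u)) * exp (u - v) ^ k := by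
    rw [← exp_nat_mul, ← exp_nat_mul, ← exp_add, exp_le_exp]
    have : (k:ℝ) + 1 ≤ j := by exact_mod_cast hjk
    nlinarith
  have h1 : 0 ≤ exp v ^ k * b := by positivity
  calc exp u ^ j * a = exp (u - v) ^ j * (exp v ^ j * a) := by rw [e1, mul_pow]; ring
    _ ≤ exp (u - v) ^ j * (exp v ^ k * b) := mul_le_mul_of_nonneg_left h (by positivity)
    _ ≤ (exp (-(v - u)) * exp (u - v) ^ k) * (exp v ^ k * b) := mul_le_mul_of_nonneg_right e2 h1
    _ = exp (-(v - u)) * ((exp (u - v) * exp v) ^ k * b) := by rw [mul_pow]; ring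
    _ = _ := by rw [← e1]

/-- scales at which a part of degree less than `k` is at least as large as all the others -/
def brk (D : Parts n P Q p) (k : ℕ) : Set ℝ :=
  {u | ∃ j < k, ∀ i ∈ Finset.range (n + 1), k ≤ i → exp u ^ i * D.m i ≤ exp u ^ j * D.m j}

/-- the scales at which the dominating part changes -/
def brks (D : Parts n P Q p) : Finset ℝ := (Finset.range n).image fun k => sSup (brk D (k + 1))

lemma card_brks (D : Parts n P Q p) : (brks D).card ≤ n := by
  refine Finset.card_image_le.trans ?_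
  rw [Finset.card_range]

lemma le_sum_div (D : Parts n P Q p) {i j : ℕ} (hj : j ∈ Finset.range (n + 1))
    (hi : 0 < D.m i) : D.m j / D.m i ≤ ∑ l ∈ Finset.range (n + 1), D.m l / D.m i :=
  Finset.single_le_sum (f := fun l => D.m l / D.m i)
    (fun l _ => div_nonneg (D.m_nonneg l) hi.le) hj

lemma bdd_brk (D : Parts n P Q p) {i k : ℕ} (hi : i ∈ Finset.range (n + 1)) (hki : k ≤ i)
    (hm : 0 < D.m i) : BddAbove (brk D k) := by
  refine ⟨∑ l ∈ Finset.range (n + 1), D.m l / D.m i, ?_⟩
  rintro u ⟨j, hj, h⟩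
  have h1 := h i hi hki
  have hji : j < i := hj.trans_le hki
  have hj' : j ∈ Finset.range (n + 1) := by
    rw [Finset.mem_range] at hi ⊢
    omega
  refine le_trans ?_ (le_sum_div D hj' hm)
  rw [le_div_iff₀ hm]
  rcases le_total u 0 with hu | hu
  · have := D.m_nonneg j
    nlinarith
  · have h3 : exp u ^ i = exp u ^ j * exp u ^ (i - j) := by
      rw [← pow_add]
      congr 1
      omega
    rw [h3, mul_assoc] at h1
    have h4 : exp u ^ (i - j) * D.m i ≤ D.m j := le_of_mul_le_mul_left h1 (by positivity)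
    have h5 : exp u ≤ exp u ^ (i - j) := le_self_pow₀ (one_le_exp hu) (by omega)
    have h6 : u ≤ exp u := by
      have := add_one_le_exp u
      linarith
    exact (mul_le_mul_of_nonneg_right (h6.trans h5) hm.le).trans h4

lemma brk_nonempty (D : Parts n P Q p) {j k : ℕ} (hj : j < k) (hm : 0 < D.m j) :
    (brk D k).Nonempty := by
  refine ⟨-∑ l ∈ Finset.range (n + 1), D.m l / D.m j, j, hj, fun i hi hki => ?_⟩
  set B := ∑ l ∈ Finset.range (n + 1), D.m l / D.m j with hB
  have hB0 : 0 ≤ B := Finset.sum_nonneg fun l _ => div_nonneg (D.m_nonneg l) hm.le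
  have h1 := le_sum_div D hi hm
  rw [← hB, div_le_iff₀ hm] at h1
  have h3 : exp (-B) ^ i = exp (-B) ^ j * exp (-B) ^ (i - j) := by
    rw [← pow_add]
    congr 1
    omega
  rw [h3, mul_assoc]
  refine mul_le_mul_of_nonneg_left ?_ (by positivity)
  have h4 : exp (-B) ^ (i - j) ≤ exp (-B) :=
    pow_le_of_le_one (exp_pos _).le (by rw [exp_le_one_iff]; linarith) (by omega)
  have h5 : exp (-B) * B ≤ 1 := by
    have h6 := add_one_le_exp B
    have h7 : exp (-B) * exp B = 1 := by rw [← exp_add, neg_add_cancel, exp_zero]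
    have h8 := exp_pos (-B)
    nlinarith
  have h9 : 0 ≤ D.m i := D.m_nonneg i
  calc exp (-B) ^ (i - j) * D.m i ≤ exp (-B) * D.m i := mul_le_mul_of_nonneg_right h4 h9
    _ ≤ exp (-B) * (B * D.m j) := mul_le_mul_of_nonneg_left h1 (exp_pos _).le
    _ = (exp (-B) * B) * D.m j := by ring
    _ ≤ 1 * D.m j := mul_le_mul_of_nonneg_right h5 hm.le
    _ = D.m j := one_mul _

/-- between the breaks one of the parts dominates -/
theorem exists_dom' (D : Parts n P Q p) {s : ℝ} (hs : 0 < s) {I : Set ℝ} (hI : I.OrdConnected)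
    (hne : I.Nonempty) (hpos : ∃ k ∈ Finset.range (n + 1), 0 < D.m k)
    (hfar : ∀ u ∈ I, ∀ c ∈ brks D, s < |u - c|) :
    ∃ k ∈ Finset.range (n + 1), 0 < D.m k ∧ ∀ u ∈ I, D.Dom s k u := by
  classical
  obtain ⟨u₀, hu₀⟩ := hne
  obtain ⟨k, hk, hmax⟩ := Finset.exists_max_image (Finset.range (n + 1))
    (fun j => exp u₀ ^ j * D.m j) ⟨0, by simp⟩
  have hmk : 0 < D.m k := by
    obtain ⟨k', hk', hk'0⟩ := hpos
    have h1 : 0 < exp u₀ ^ k' * D.m k' := by positivity
    have h2 := h1.trans_le (hmax k' hk')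
    exact (pos_iff_pos_of_mul_pos h2).1 (by positivity)
  have hk' := Finset.mem_range.1 hk
  refine ⟨k, hk, hmk, fun u hu j hj hjk => ?_⟩
  have hj' := Finset.mem_range.1 hj
  rcases (D.m_nonneg j).eq_or_lt with h0 | h0
  · rw [← h0, mul_zero]
    positivity
  have hMk : 0 < exp u₀ ^ k * D.m k := by positivity
  rcases lt_or_gt_of_ne hjk with hlt | hgt
  · -- lower degree
    have hmem : sSup (brk D k) ∈ brks D := by
      refine Finset.mem_image.2 ⟨k - 1, Finset.mem_range.2 (by omega), ?_⟩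
      rw [Nat.sub_add_cancel (by omega)]
    obtain ⟨b, hb⟩ : ∃ b, b = sSup (brk D k) := ⟨_, rfl⟩
    rw [← hb] at hmem
    have hbd : BddAbove (brk D k) := bdd_brk D hk le_rfl hmk
    have hne' : (brk D k).Nonempty := brk_nonempty D hlt h0
    have hb0 : b ≤ u₀ := by
      by_contra hcon
      push Not at hcon
      rw [hb] at hcon
      obtain ⟨v, ⟨j', hj'k, hv⟩, huv⟩ := exists_lt_of_lt_csSup hne' hcon
      have h1 := shift_dn (D.m_nonneg j') hj'k huv.le (hv k hk le_rfl)
      have h2 := hmax j' (Finset.mem_range.2 (by omega))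
      have h3 : exp (-(v - u₀)) < 1 := by rw [exp_lt_one_iff]; linarith
      have h4 : exp (-(v - u₀)) * (exp u₀ ^ j' * D.m j') ≤
          exp (-(v - u₀)) * (exp u₀ ^ k * D.m k) := mul_le_mul_of_nonneg_left h2 (exp_pos _).le
      nlinarith
    have hall : ∀ v ∈ I, b + s < v := by
      intro v hv
      rcases lt_abs.1 (hfar v hv b hmem) with h | h
      · linarith
      · exfalso
        have h1 := hI.out hv hu₀ (show b ∈ Icc v u₀ from ⟨by linarith, hb0⟩)
        have h2 := hfar b h1 b hmem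
        rw [sub_self, abs_zero] at h2
        linarith
    set v := min (u - s) u₀ with hv
    have hbv : b < v := lt_min (by linarith [hall u hu]) (by linarith [hall u₀ hu₀])
    have hvu : v ≤ u - s := min_le_left _ _
    have hvu₀ : v ≤ u₀ := min_le_right _ _
    have hnot : v ∉ brk D k := by
      intro h
      have := le_csSup hbd h
      rw [← hb] at this
      linarith
    have h1 : ∃ i ∈ Finset.range (n + 1), k ≤ i ∧ exp v ^ j * D.m j < exp v ^ i * D.m i := by
      by_contra hcon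
      push Not at hcon
      exact hnot ⟨j, hlt, fun i hi hki => hcon i hi hki⟩
    obtain ⟨i, hi, hki, hlt'⟩ := h1
    have h2 : exp v ^ i * D.m i ≤ exp v ^ k * D.m k := by
      rcases hki.eq_or_lt with h | h
      · rw [h]
      · have h3 := shift_dn (D.m_nonneg k) h hvu₀ (hmax i hi)
        refine h3.trans ?_
        have h4 : exp (-(u₀ - v)) ≤ 1 := by rw [exp_le_one_iff]; linarith
        have h5 : 0 ≤ exp v ^ k * D.m k := by positivity
        nlinarith
    have h3 := shift_up (u := u) (D.m_nonneg k) hlt (by linarith) (hlt'.le.trans h2)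
    refine h3.trans (mul_le_mul_of_nonneg_right (exp_le_exp.2 (by linarith)) (by positivity))
  · -- higher degree
    have hmem : sSup (brk D (k + 1)) ∈ brks D :=
      Finset.mem_image.2 ⟨k, Finset.mem_range.2 (by omega), rfl⟩
    obtain ⟨b, hb⟩ : ∃ b, b = sSup (brk D (k + 1)) := ⟨_, rfl⟩
    rw [← hb] at hmem
    have hbd : BddAbove (brk D (k + 1)) := bdd_brk D hj (by omega) h0
    have hmem0 : u₀ ∈ brk D (k + 1) := ⟨k, by omega, fun i hi _ => hmax i hi⟩
    have hb0 : u₀ ≤ b := by
      rw [hb]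
      exact le_csSup hbd hmem0
    have hall : ∀ v ∈ I, v < b - s := by
      intro v hv
      rcases lt_abs.1 (hfar v hv b hmem) with h | h
      · exfalso
        have h1 := hI.out hu₀ hv (show b ∈ Icc u₀ v from ⟨hb0, by linarith⟩)
        have h2 := hfar b h1 b hmem
        rw [sub_self, abs_zero] at h2
        linarith
      · linarith
    have hlt : max (u + s) u₀ < sSup (brk D (k + 1)) := by
      rw [← hb]
      exact max_lt (by linarith [hall u hu]) (by linarith [hall u₀ hu₀])
    obtain ⟨v, ⟨j', hj'k, hv⟩, huv⟩ := exists_lt_of_lt_csSup ⟨u₀, hmem0⟩ hlt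
    have hv1 : u + s < v := (le_max_left _ _).trans_lt huv
    have hv2 : u₀ < v := (le_max_right _ _).trans_lt huv
    have h2 : exp v ^ j' * D.m j' ≤ exp v ^ k * D.m k := by
      rcases (Nat.lt_succ_iff.1 hj'k).eq_or_lt with h | h
      · rw [h]
      · have h3 := shift_up (D.m_nonneg k) h hv2.le (hmax j' (Finset.mem_range.2 (by omega)))
        refine h3.trans ?_
        have h4 : exp (-(v - u₀)) ≤ 1 := by rw [exp_le_one_iff]; linarith
        have h5 : 0 ≤ exp v ^ k * D.m k := by positivity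
        nlinarith
    have h3 := shift_dn (u := u) (D.m_nonneg k) hgt (by linarith) ((hv j hj (by omega)).trans h2)
    refine h3.trans (mul_le_mul_of_nonneg_right (exp_le_exp.2 (by linarith)) (by positivity))

/-- one homogeneous part dominates on a closed orbit outside the windows -/
lemma dom_orbit' (D : Parts n P Q p) (hpos : ∃ k ∈ Finset.range (n + 1), 0 < D.m k) {s : ℝ}
    (hs : 0 < s) {α : ℝ} {C : Set (ℝ × ℝ)} (hC : ClosedOrbit (rf (field P Q) α) C) (hpC : p ∉ C)
    (hfar : ∀ z ∈ C, ∀ c ∈ brks D, s < |lg p z - c|) :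
    ∃ k ∈ Finset.range (n + 1), 0 < D.m k ∧ ∀ z ∈ C, D.Dom s k (lg p z) := by
  obtain ⟨γ, T, hO, hCr⟩ := m0 (field P Q) (H709R2.contDiff_field P Q) α C hC
  have hγ : Continuous γ := continuous_iff_continuousAt.mpr fun t => (hO.ode t).continuousAt
  have hne : ∀ t, γ t ≠ p := fun t h => hpC (by rw [hCr]; exact ⟨t, h⟩)
  have hc : Continuous fun t => lg p (γ t) := by
    unfold lg H709R2.sq
    refine Continuous.div_const ?_ _
    refine Continuous.log (by fun_prop) fun t => ?_
    exact (H709R2.sq_pos (sub_ne_zero.2 (hne t))).ne'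
  have hI : (range fun t => lg p (γ t)).OrdConnected :=
    (isPreconnected_range hc).ordConnected
  obtain ⟨k, hk, hm, hd⟩ := exists_dom' D hs hI ⟨_, ⟨0, rfl⟩⟩ hpos (by
    rintro _ ⟨t, rfl⟩ c hcc
    exact hfar (γ t) (by rw [hCr]; exact ⟨t, rfl⟩) c hcc)
  refine ⟨k, hk, hm, fun z hz => ?_⟩
  rw [hCr] at hz
  obtain ⟨t, rfl⟩ := hz
  exact hd _ ⟨t, rfl⟩

end

end Pool.Agent.Q62.HU
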