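import Pool.Agent.Q62.HU.Hom

/-! The general count: all scales but finitely many annuli are dominated by a definite part. -/

open Real Set MeasureTheory Topology Filter
open scoped ENNReal

namespace Pool.Agent.Q62.HU

noncomputable section

open Pool.Agent.H709R2 (rot wedge field ClosedOrbit)
open Pool.Agent.H709U Pool.Agent.W960.HQ
open Pool.Agent.H709Q (Maj majRules)

variable {n : ℕ} {P Q : MvPolynomial (Fin 2) ℝ} {p : ℝ × ℝ}

/-- at the scale `u` some part dominates by the factor `2 n / c` and is large in all directions -/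
def Gd (D : Parts n P Q p) (c u : ℝ) : Prop :=
  ∃ k ∈ Finset.range (n + 1), 0 < D.m k ∧ D.Dom (log (2 * n / c)) k u ∧ Def D c k

lemma zone_def {n : ℕ} {P Q : MvPolynomial (Fin 2) ℝ} {p : ℝ × ℝ} (D : Parts n P Q p)
    (hn : 1 ≤ n) {c : ℝ} (hc0 : 0 < c) {k : ℕ} (hk : k ∈ Finset.range (n + 1))
    (hm : 0 < D.m k) (hD : Def D c k) :
    Maj (fun α => ({C | ZC D (log (2 * n / c)) k α C}.encard : ℝ≥0∞)) (11 * n) := by
  have hn' : (0:ℝ) < n := by exact_mod_cast hn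
  have hπ := Real.pi_pos
  have H : Hyp D (log (2 * n / c)) c k := by
    refine ⟨hk, hm, hc0, hD, ?_⟩
    rw [exp_neg_log hn hc0]
    apply le_of_eq
    field_simp
  have h1 := maj_zone H (Hf := Ioc 0 (π / 2)) (fun α hα β hβ => by
    rw [abs_le]
    constructor <;> linarith [hα.1, hα.2, hβ.1, hβ.2])
  have h2 := maj_zone H (Hf := Ioo (π / 2) π) (fun α hα β hβ => by
    rw [abs_le]
    constructor <;> linarith [hα.1, hα.2, hβ.1, hβ.2])
  have hK : π * n ^ 2 / c * exp (-log (2 * n / c)) * (10 / 3) = 5 / 3 * π * n := by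
    rw [exp_neg_log hn hc0]
    field_simp
    ring
  rw [hK] at h1 h2
  have h3 := majRules.2.1 _ _ _ _ (by positivity) (by positivity) h1 h2
  refine Z1aux.maj_mono (fun α hα => ?_) ?_ h3
  · simp only [cnt]
    rcases le_or_gt α (π / 2) with h | h
    · rw [indicator_of_mem (show α ∈ Ioc 0 (π / 2) from ⟨hα.1, h⟩)]
      exact le_self_add
    · rw [indicator_of_mem (show α ∈ Ioo (π / 2) π from ⟨h, hα.2⟩)]
      exact le_add_self
  · have := Real.pi_lt_d2
    nlinarith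

/-- two different parts do not dominate at the same scale -/
lemma dom_unique (D : Parts n P Q p) {s : ℝ} (hs : 0 < s) {k l : ℕ}
    (hk : k ∈ Finset.range (n + 1)) (hl : l ∈ Finset.range (n + 1)) (hmk : 0 < D.m k) {u : ℝ}
    (h1 : D.Dom s k u) (h2 : D.Dom s l u) : k = l := by
  by_contra hne
  have a1 := h1 l hl (Ne.symm hne)
  have a2 := h2 k hk hne
  have h3 : exp (-s) < 1 := by rw [exp_lt_one_iff]; linarith
  have h4 : 0 < exp u ^ k * D.m k := by positivity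
  have h5 := exp_pos (-s)
  have h6 : exp u ^ k * D.m k ≤ exp (-s) * (exp (-s) * (exp u ^ k * D.m k)) :=
    a2.trans (mul_le_mul_of_nonneg_left a1 h5.le)
  have h7 : exp (-s) * (exp (-s) * (exp u ^ k * D.m k)) < exp u ^ k * D.m k := by
    have h8 : exp (-s) * (exp u ^ k * D.m k) < exp u ^ k * D.m k := by nlinarith
    nlinarith
  linarith

lemma isClosed_dom (D : Parts n P Q p) (s : ℝ) (k : ℕ) : IsClosed {u | D.Dom s k u} := by
  have : {u | D.Dom s k u} = ⋂ j ∈ Finset.range (n + 1), ⋂ (_ : j ≠ k),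
      {u | exp u ^ j * D.m j ≤ exp (-s) * (exp u ^ k * D.m k)} := by
    ext u
    simp only [Parts.Dom, mem_setOf_eq, mem_iInter]
  rw [this]
  refine isClosed_biInter fun j _ => isClosed_iInter fun _ => ?_
  exact isClosed_le (by fun_prop) (by fun_prop)

/-- on a connected set of good scales the dominating part is the same -/
lemma good_const (D : Parts n P Q p) {c : ℝ} (hs : 0 < log (2 * n / c)) {I : Set ℝ}
    (hI : IsPreconnected I) (hne : I.Nonempty) (hg : ∀ u ∈ I, Gd D c u) :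
    ∃ k ∈ Finset.range (n + 1), 0 < D.m k ∧ Def D c k ∧
      ∀ u ∈ I, D.Dom (log (2 * n / c)) k u := by
  classical
  obtain ⟨u₀, hu₀⟩ := hne
  obtain ⟨k, hk, hm, hd, hD⟩ := hg u₀ hu₀
  refine ⟨k, hk, hm, hD, fun u hu => ?_⟩
  -- the other parts
  set A : Set ℝ := {u | D.Dom (log (2 * n / c)) k u} with hA
  set B : Set ℝ := ⋃ l ∈ (Finset.range (n + 1)).filter (fun l => 0 < D.m l ∧ l ≠ k),
    {u | D.Dom (log (2 * n / c)) l u} with hB
  have hAc : IsClosed A := isClosed_dom D _ k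
  have hBc : IsClosed B := by
    rw [hB]
    exact Set.Finite.isClosed_biUnion (Finset.finite_toSet _) fun l _ => isClosed_dom D _ l
  have hcov : I ⊆ A ∪ B := by
    intro v hv
    obtain ⟨l, hl, hml, hdl, -⟩ := hg v hv
    by_cases hlk : l = k
    · left
      rw [hlk] at hdl
      exact hdl
    · right
      simp only [hB, mem_iUnion]
      exact ⟨l, Finset.mem_filter.2 ⟨hl, hml, hlk⟩, hdl⟩
  by_contra hcon
  have hB' : (I ∩ B).Nonempty := ⟨u, hu, (hcov hu).resolve_left hcon⟩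
  obtain ⟨v, hv, hvA, hvB⟩ := (isPreconnected_closed_iff.1 hI) A B hAc hBc hcov ⟨u₀, hu₀, hd⟩ hB'
  simp only [hB, mem_iUnion] at hvB
  obtain ⟨l, hl, hdl⟩ := hvB
  rw [Finset.mem_filter] at hl
  exact hl.2.2 (dom_unique D hs hk hl.1 hm hvA hdl).symm

/-- **One zero of the field.** -/
theorem one_gen (hP : P.totalDegree ≤ n) (hQ : Q.totalDegree ≤ n) (hn : 1 ≤ n)
    (D : Parts n P Q p) {c : ℝ} (hc0 : 0 < c) (hc1 : c ≤ 1) (E : Finset ℝ)
    (hE : ∀ u, (∀ e ∈ E, u ∉ Icc e (e + 1)) → Gd D c u) :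
    Maj (fun α => ({C | C ∈ Cl P Q α ∧ InBox p C ∧ p ∉ C}.encard : ℝ≥0∞))
      (8000 * (n + 1) * E.card + 11 * n * (n + 1)) := by
  classical
  have hn' : (1:ℝ) ≤ n := by exact_mod_cast hn
  obtain ⟨s, hs⟩ : ∃ s, s = log (2 * n / c) := ⟨_, rfl⟩
  have hs0 : 0 < s := by
    rw [hs]
    apply Real.log_pos
    rw [lt_div_iff₀ hc0]
    linarith
  set HS : ℝ → ℝ → Set (Set (ℝ × ℝ)) := fun v α => {C | C ∈ Cl P Q α ∧ InBox p C ∧
    p ∉ C ∧ ∃ z ∈ C, v ≤ lg p z ∧ lg p z ≤ v + 1} with hHS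
  set K : Finset ℕ := (Finset.range (n + 1)).filter (fun k => 0 < D.m k ∧ Def D c k) with hK
  have hcover : ∀ α, {C | C ∈ Cl P Q α ∧ InBox p C ∧ p ∉ C} ⊆
      (⋃ e ∈ E, HS e α) ∪ ⋃ k ∈ K, {C | ZC D s k α C} := by
    rintro α C ⟨hC, hbox, hpC⟩
    by_cases hcase : ∀ z ∈ C, ∀ e ∈ E, lg p z ∉ Icc e (e + 1)
    · right
      obtain ⟨γ, T, hO, hCr⟩ := m0 (field P Q) (H709R2.contDiff_field P Q) α C hC
      have hγ : Continuous γ := orb_cont hO
      have hne : ∀ t, γ t ≠ p := fun t h => hpC (by rw [hCr]; exact ⟨t, h⟩)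
      have hc : Continuous fun t => lg p (γ t) := by
        unfold lg H709R2.sq
        refine Continuous.div_const ?_ _
        refine Continuous.log (by fun_prop) fun t => ?_
        exact (H709R2.sq_pos (sub_ne_zero.2 (hne t))).ne'
      obtain ⟨k, hk, hm, hD, hd⟩ := good_const D (hs ▸ hs0) (isPreconnected_range hc)
        ⟨_, ⟨0, rfl⟩⟩ (by
          rintro _ ⟨t, rfl⟩
          exact hE _ fun e he => hcase (γ t) (by rw [hCr]; exact ⟨t, rfl⟩) e he)
      simp only [mem_iUnion]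
      refine ⟨k, Finset.mem_filter.2 ⟨hk, hm, hD⟩, hC, hpC, fun z hz => ?_⟩
      rw [hCr] at hz
      obtain ⟨t, rfl⟩ := hz
      rw [hs]
      exact hd _ ⟨t, rfl⟩
    · left
      push Not at hcase
      obtain ⟨z, hz, e, he, hle⟩ := hcase
      simp only [mem_iUnion]
      exact ⟨e, he, hC, hbox, hpC, z, hz, hle.1, hle.2⟩
  have hle : ∀ α, (({C | C ∈ Cl P Q α ∧ InBox p C ∧ p ∉ C}.encard : ℕ∞) : ℝ≥0∞) ≤
      (∑ e ∈ E, ((HS e α).encard : ℝ≥0∞)) + ∑ k ∈ K, ({C | ZC D s k α C}.encard : ℝ≥0∞) := by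
    intro α
    refine (ENat.toENNReal_le.2 (encard_le_encard (hcover α))).trans ?_
    refine (ENat.toENNReal_le.2 (encard_union_le _ _)).trans ?_
    rw [ENat.toENNReal_add]
    exact add_le_add (encard_biUnion_le' _ _ _ subset_rfl) (encard_biUnion_le' _ _ _ subset_rfl)
  have h8 : (0 : ℝ) ≤ 8000 * (n + 1) := by positivity
  have hM1 : Maj (fun α => ∑ e ∈ E, ((HS e α).encard : ℝ≥0∞))
      (∑ e ∈ E, (8000 * ((n : ℝ) + 1))) :=
    Z1aux.maj_sum _ _ _ (fun _ _ => h8) fun e _ => h4' n P Q hP hQ p _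
  have hM2 : Maj (fun α => ∑ k ∈ K, ({C | ZC D s k α C}.encard : ℝ≥0∞))
      (∑ k ∈ K, 11 * (n:ℝ)) := by
    refine Z1aux.maj_sum _ _ _ (fun _ _ => by positivity) fun k hk => ?_
    rw [hK, Finset.mem_filter] at hk
    rw [hs]
    exact zone_def D hn hc0 hk.1 hk.2.1 hk.2.2
  have hM := majRules.2.1 _ _ _ _ (Finset.sum_nonneg fun _ _ => h8)
    (Finset.sum_nonneg fun _ _ => by positivity) hM1 hM2
  refine Z1aux.maj_mono (fun α _ => hle α) ?_ hM
  rw [Finset.sum_const, Finset.sum_const, nsmul_eq_mul, nsmul_eq_mul]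
  have c2 : (K.card : ℝ) ≤ n + 1 := by
    have := Finset.card_filter_le (Finset.range (n + 1)) (fun k => 0 < D.m k ∧ Def D c k)
    rw [Finset.card_range] at this
    exact_mod_cast this
  have e3 : (K.card : ℝ) * (11 * n) ≤ (n + 1) * (11 * n) :=
    mul_le_mul_of_nonneg_right c2 (by positivity)
  nlinarith

/-- **The general count.** -/
theorem gen (hP : P.totalDegree ≤ n) (hQ : Q.totalDegree ≤ n) (hn : 1 ≤ n)
    (hPQ : IsRelPrime P Q) {c : ℝ} (hc0 : 0 < c) (hc1 : c ≤ 1) (m : ℕ)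
    (hE : ∀ p, field P Q p = 0 → ∃ (D : Parts n P Q p) (E : Finset ℝ), E.card ≤ m ∧
      ∀ u, (∀ e ∈ E, u ∉ Icc e (e + 1)) → Gd D c u) :
    Maj (fun α => ((Cl P Q α).encard : ℝ≥0∞)) (n ^ 2 * (n + 1) * (8000 * m + 11 * n)) := by
  classical
  obtain ⟨Z, hZc, hZ⟩ := b3 n P Q hP hQ hPQ
  have hcd : ContDiff ℝ 2 (field P Q) := H709R2.contDiff_field P Q
  have hB : (0:ℝ) ≤ (n + 1) * (8000 * m + 11 * n) := by positivity
  have h1 : ∀ p ∈ Z, Maj (fun α => ({C | C ∈ Cl P Q α ∧ InBox p C ∧ p ∉ C}.encard : ℝ≥0∞))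
      ((n + 1) * (8000 * m + 11 * n)) := by
    intro p hp
    obtain ⟨D, E, hc, hD⟩ := hE p ((hZ p).2 hp)
    refine Z1aux.maj_mono (fun _ _ => le_rfl) ?_ (one_gen hP hQ hn D hc0 hc1 E hD)
    have h2 : (E.card : ℝ) ≤ m := by exact_mod_cast hc
    have h3 : 8000 * ((n:ℝ) + 1) * E.card ≤ 8000 * ((n:ℝ) + 1) * m :=
      mul_le_mul_of_nonneg_left h2 (by positivity)
    linarith
  have h2 := Z1aux.maj_sum Z _ _ (fun _ _ => hB) h1
  refine Z1aux.maj_mono (fun α _ => ?_) ?_ h2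
  · apply encard_biUnion_le'
    intro C hC
    obtain ⟨p, hp0, hbox⟩ := t3' (field P Q) hcd α C hC
    have hpC : p ∉ C := by
      intro hpC
      obtain ⟨γ, T, hO, hCr⟩ := m0 (field P Q) hcd α C hC
      rw [hCr] at hpC
      obtain ⟨t, ht⟩ := hpC
      apply hO.ne t
      rw [ht, rf, hp0, Z1aux.rot_zero']
    simp only [mem_iUnion]
    exact ⟨p, (hZ p).1 hp0, hC, hbox, hpC⟩
  · rw [Finset.sum_const, nsmul_eq_mul]
    have h3 : (Z.card : ℝ) ≤ n ^ 2 := by exact_mod_cast hZc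
    refine (mul_le_mul_of_nonneg_right h3 hB).trans (le_of_eq ?_)
    ring

end

end Pool.Agent.Q62.HU
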