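import Pool.Agent.Q62.HU.Main
import Pool.Agent.W960.HP.Tot

/-! The homogeneous parts of the field in terms of the translated polynomials. -/

open Real Set MeasureTheory Topology Filter
open scoped ENNReal

namespace Pool.Agent.Q62.HU

noncomputable section

open Pool.Agent.H709R2 (rot wedge field ClosedOrbit)
open Pool.Agent.H709U Pool.Agent.W960.HQ
open Pool.Agent.H709Q (Maj majRules)

/-- the polynomial `F (p + x)` -/
def expd (p : ℝ × ℝ) (F : MvPolynomial (Fin 2) ℝ) : MvPolynomial (Fin 2) ℝ :=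
  MvPolynomial.bind₁ (fun i => MvPolynomial.X i + MvPolynomial.C (![p.1, p.2] i)) F

/-- the homogeneous part of degree `k` of `F (p + x)` -/
def hc (p : ℝ × ℝ) (F : MvPolynomial (Fin 2) ℝ) (k : ℕ) : MvPolynomial (Fin 2) ℝ :=
  MvPolynomial.homogeneousComponent k (expd p F)

lemma expd_degree {n : ℕ} {P : MvPolynomial (Fin 2) ℝ} (hP : P.totalDegree ≤ n) (p : ℝ × ℝ) :
    (expd p P).totalDegree ≤ n := by
  unfold expd
  conv_lhs => rw [← P.support_sum_monomial_coeff]
  rw [map_sum]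
  refine MvPolynomial.totalDegree_finsetSum_le fun v hv => ?_
  rw [MvPolynomial.bind₁_monomial]
  refine (MvPolynomial.totalDegree_mul _ _).trans ?_
  rw [MvPolynomial.totalDegree_C, zero_add]
  refine (MvPolynomial.totalDegree_finsetProd _ _).trans ?_
  have h1 : (v.sum fun _ e => e) ≤ n := (MvPolynomial.le_totalDegree hv).trans hP
  refine le_trans (Finset.sum_le_sum fun i _ => ?_) h1
  refine (MvPolynomial.totalDegree_pow _ _).trans ?_
  have h2 : (MvPolynomial.X i + MvPolynomial.C (![p.1, p.2] i) :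
      MvPolynomial (Fin 2) ℝ).totalDegree ≤ 1 := by
    refine (MvPolynomial.totalDegree_add _ _).trans ?_
    simp
  calc v i * _ ≤ v i * 1 := Nat.mul_le_mul_left _ h2
    _ = v i := mul_one _

lemma expd_eval (p : ℝ × ℝ) (P : MvPolynomial (Fin 2) ℝ) (x y : ℝ) :
    MvPolynomial.eval ![x, y] (expd p P) = MvPolynomial.eval ![p.1 + x, p.2 + y] P := by
  rw [expd, ← MvPolynomial.coe_aeval_eq_eval, ← MvPolynomial.coe_aeval_eq_eval]
  simp only [RingHom.coe_coe]
  rw [MvPolynomial.aeval_bind₁]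
  congr 2
  funext i
  fin_cases i <;> simp [add_comm]

lemma exists_forms' {n : ℕ} {P : MvPolynomial (Fin 2) ℝ} (hP : P.totalDegree ≤ n) (p : ℝ × ℝ) :
    ∃ c : (j : ℕ) → Fin (j + 1) → ℝ, (∀ u θ : ℝ,
      MvPolynomial.eval ![(pt p u θ).1, (pt p u θ).2] P =
        ∑ j ∈ Finset.range (n + 1), exp u ^ j * form (c j) θ) ∧
      ∀ j θ, form (c j) θ = MvPolynomial.eval ![cos θ, sin θ] (hc p P j) := by
  choose c hc' using fun j => exists_form_of_hom
    (MvPolynomial.homogeneousComponent_isHomogeneous j (expd p P))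
  refine ⟨c, fun u θ => ?_, fun j θ => ?_⟩
  · have h1 : MvPolynomial.eval ![(pt p u θ).1, (pt p u θ).2] P =
        MvPolynomial.eval ![exp u * cos θ, exp u * sin θ] (expd p P) := by
      rw [expd_eval]
      rfl
    rw [h1]
    have h2 : expd p P = ∑ j ∈ Finset.range (n + 1),
        MvPolynomial.homogeneousComponent j (expd p P) := by
      conv_lhs => rw [← MvPolynomial.sum_homogeneousComponent (expd p P)]
      have hdeg := expd_degree hP p
      refine Finset.sum_subset (Finset.range_mono (by omega)) fun j _ hj => ?_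
      apply MvPolynomial.homogeneousComponent_eq_zero
      rw [Finset.mem_range] at hj
      omega
    conv_lhs => rw [h2]
    rw [map_sum]
    exact Finset.sum_congr rfl fun j _ => hc' j _ _
  · have h1 := hc' j 1 θ
    rw [one_pow, one_mul, one_mul, one_mul] at h1
    exact h1.symm

/-- length of the homogeneous part of degree `k` in the direction `θ` -/
def prt (P Q : MvPolynomial (Fin 2) ℝ) (p : ℝ × ℝ) (k : ℕ) (θ : ℝ) : ℝ :=
  √(MvPolynomial.eval ![cos θ, sin θ] (hc p P k) ^ 2 +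
    MvPolynomial.eval ![cos θ, sin θ] (hc p Q k) ^ 2)

/-- the largest length -/
def siz (P Q : MvPolynomial (Fin 2) ℝ) (p : ℝ × ℝ) (k : ℕ) : ℝ := ⨆ θ, prt P Q p k θ

lemma exists_parts' {n : ℕ} {P Q : MvPolynomial (Fin 2) ℝ} (hP : P.totalDegree ≤ n)
    (hQ : Q.totalDegree ≤ n) (p : ℝ × ℝ) : ∃ D : Parts n P Q p,
      (∀ j θ, √(D.q j θ) = prt P Q p j θ) ∧ ∀ j, D.m j = siz P Q p j := by
  obtain ⟨a, ha, ha'⟩ := exists_forms' hP p
  obtain ⟨b, hb, hb'⟩ := exists_forms' hQ p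
  let D : Parts n P Q p := ⟨a, b, fun u θ => Prod.ext (ha u θ) (hb u θ)⟩
  have h1 : ∀ j θ, √(D.q j θ) = prt P Q p j θ := by
    intro j θ
    show √(form (a j) θ ^ 2 + form (b j) θ ^ 2) = _
    rw [ha', hb']
    rfl
  refine ⟨D, h1, fun j => ?_⟩
  unfold siz
  apply le_antisymm
  · have h2 : D.m j = prt P Q p j (D.tm j) := h1 j _
    rw [h2]
    refine le_ciSup (f := fun θ => prt P Q p j θ) ⟨D.m j, ?_⟩ (D.tm j)
    rintro _ ⟨θ, rfl⟩
    simp only
    rw [← h1]
    exact D.sqrt_q_le j θ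
  · refine ciSup_le fun θ => ?_
    rw [← h1]
    exact D.sqrt_q_le j θ

lemma hc_zero {n : ℕ} {P : MvPolynomial (Fin 2) ℝ} (hP : P.totalDegree ≤ n) (p : ℝ × ℝ) {j : ℕ}
    (hj : n < j) : hc p P j = 0 := by
  apply MvPolynomial.homogeneousComponent_eq_zero
  have := expd_degree hP p
  omega

lemma siz_zero {n : ℕ} {P Q : MvPolynomial (Fin 2) ℝ} (hP : P.totalDegree ≤ n)
    (hQ : Q.totalDegree ≤ n) (p : ℝ × ℝ) {j : ℕ} (hj : n < j) : siz P Q p j = 0 := by
  unfold siz prt
  rw [hc_zero hP p hj, hc_zero hQ p hj]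
  simp

/-- the closed orbits are counted on average over the rotations -/
theorem main' {n : ℕ} {P Q : MvPolynomial (Fin 2) ℝ} (hP : P.totalDegree ≤ n)
    (hQ : Q.totalDegree ≤ n) (hn : 1 ≤ n) (hPQ : IsRelPrime P Q) {c : ℝ} (hc0 : 0 < c)
    (hc1 : c ≤ 1)
    (hW : ∀ p : ℝ × ℝ, MvPolynomial.eval ![p.1, p.2] P = 0 → MvPolynomial.eval ![p.1, p.2] Q = 0 →
      ∀ (k : ℕ) (r : ℝ), 0 < r → (∀ j, j ≠ k →
        2 * n / c * (siz P Q p j * r ^ j) ≤ siz P Q p k * r ^ k) →
      ∀ θ, c * siz P Q p k ≤ prt P Q p k θ) :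
    Maj (fun α => ((Cl P Q α).encard : ℝ≥0∞))
      (16000 * (n ^ 3 * (n + 1)) * (1 + log (2 * n / c))) := by
  refine main hP hQ hn hPQ hc0 hc1 fun p hp => ?_
  obtain ⟨D, hD1, hD2⟩ := exists_parts' hP hQ p
  refine ⟨D, fun k hk hm hu θ => ?_⟩
  obtain ⟨u, hu⟩ := hu
  rw [hD1, hD2]
  refine hW p (congrArg Prod.fst hp) (congrArg Prod.snd hp) k (exp u) (exp_pos u) ?_ θ
  intro j hjk
  rcases le_or_gt j n with hj | hj
  · have h1 := hu j (Finset.mem_range.2 (by omega)) hjk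
    rw [exp_neg_log hn hc0, hD2, hD2] at h1
    have hn' : (0:ℝ) < n := by exact_mod_cast hn
    have h2 := mul_le_mul_of_nonneg_left h1 (show (0:ℝ) ≤ 2 * n / c by positivity)
    calc 2 * n / c * (siz P Q p j * exp u ^ j) = 2 * n / c * (exp u ^ j * siz P Q p j) := by ring
      _ ≤ _ := h2
      _ = siz P Q p k * exp u ^ k := by
        field_simp
  · rw [siz_zero hP hQ p hj, zero_mul, mul_zero]
    have := D.m_nonneg k
    rw [hD2] at this
    positivity

/-- without zeros on the circle the parts are large in all directions -/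
theorem exists_const {n : ℕ} {P Q : MvPolynomial (Fin 2) ℝ} (hP : P.totalDegree ≤ n)
    (hQ : Q.totalDegree ≤ n) (_ : 1 ≤ n) (hPQ : IsRelPrime P Q)
    (hdef : ∀ p : ℝ × ℝ, MvPolynomial.eval ![p.1, p.2] P = 0 →
      MvPolynomial.eval ![p.1, p.2] Q = 0 →
      ∀ k, (∀ θ, prt P Q p k θ = 0) ∨ ∀ θ, prt P Q p k θ ≠ 0) :
    ∃ c : ℝ, 0 < c ∧ c ≤ 1 ∧ ∀ p : ℝ × ℝ, MvPolynomial.eval ![p.1, p.2] P = 0 →
      MvPolynomial.eval ![p.1, p.2] Q = 0 → ∀ k θ, c * siz P Q p k ≤ prt P Q p k θ := by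
  classical
  obtain ⟨Z, hZc, hZ⟩ := b3 n P Q hP hQ hPQ
  -- one part
  have hone : ∀ q : (ℝ × ℝ) × ℕ, ∃ c : ℝ, 0 < c ∧ c ≤ 1 ∧ (q.1 ∈ Z →
      ∀ θ, c * siz P Q q.1 q.2 ≤ prt P Q q.1 q.2 θ) := by
    rintro ⟨p, k⟩
    by_cases hp : p ∈ Z
    swap
    · exact ⟨1, one_pos, le_rfl, fun h => absurd h hp⟩
    have hp0 := (hZ p).2 hp
    obtain ⟨D, hD1, hD2⟩ := exists_parts' hP hQ p
    rcases hdef p (congrArg Prod.fst hp0) (congrArg Prod.snd hp0) k with h0 | h0
    · refine ⟨1, one_pos, le_rfl, fun _ θ => ?_⟩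
      have : siz P Q p k = 0 := by
        unfold siz
        simp only [h0, ciSup_const]
      simp only
      rw [this, h0]
      simp
    · -- the minimum
      have hc : Continuous fun θ => √(D.q k θ) :=
        (((E2.form_continuous (D.a k)).pow 2).add ((E2.form_continuous (D.b k)).pow 2)).sqrt
      obtain ⟨β, hβ, hmin⟩ := (isCompact_Icc (a := (0:ℝ)) (b := 2 * π)).exists_isMinOn
        (nonempty_Icc.mpr (by positivity : (0 : ℝ) ≤ 2 * π)) hc.continuousOn
      have hall : ∀ θ, √(D.q k β) ≤ √(D.q k θ) := by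
        intro θ
        have hper : Function.Periodic (fun θ => √(D.q k θ)) (2 * π) := by
          intro x
          simp only [Parts.q]
          rw [E2.form_periodic (D.a k) x, E2.form_periodic (D.b k) x]
        obtain ⟨y, hy, hy2⟩ := hper.exists_mem_Ico₀ (by positivity) θ
        replace hy2 : √(D.q k θ) = √(D.q k y) := hy2
        rw [hy2]
        exact hmin (Ico_subset_Icc_self hy)
      have hb0 : 0 < √(D.q k β) := by
        rcases (Real.sqrt_nonneg (D.q k β)).eq_or_lt with h | h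
        · exact absurd (by rw [← hD1]; exact h.symm) (h0 β)
        · exact h
      have hb1 : √(D.q k β) ≤ D.m k := D.sqrt_q_le k β
      have hm : 0 < D.m k := hb0.trans_le hb1
      refine ⟨√(D.q k β) / D.m k, by positivity, (div_le_one hm).2 hb1, fun _ θ => ?_⟩
      simp only
      rw [← hD1, ← hD2, div_mul_cancel₀ _ hm.ne']
      exact hall θ
  choose c hc0 hc1 hc2 using hone
  have hex : ∀ S : Finset ((ℝ × ℝ) × ℕ), ∃ m : ℝ, 0 < m ∧ m ≤ 1 ∧ ∀ q ∈ S, m ≤ c q := by
    intro S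
    induction S using Finset.induction_on with
    | empty => exact ⟨1, one_pos, le_rfl, by simp⟩
    | insert a s ha ih =>
      obtain ⟨m, hm0, hm1, hm⟩ := ih
      refine ⟨min m (c a), lt_min hm0 (hc0 a), (min_le_left _ _).trans hm1, fun q hq => ?_⟩
      rcases Finset.mem_insert.1 hq with rfl | hq
      · exact min_le_right _ _
      · exact (min_le_left _ _).trans (hm q hq)
  obtain ⟨m, hm0, hm1, hm⟩ := hex (Z ×ˢ Finset.range (n + 1))
  refine ⟨m, hm0, hm1, fun p hp hq k θ => ?_⟩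
  have hpZ : p ∈ Z := (hZ p).1 (Prod.ext hp hq)
  rcases le_or_gt k n with hk | hk
  · have h1 := hc2 (p, k) hpZ θ
    have h2 := hm (p, k) (Finset.mem_product.2 ⟨hpZ, Finset.mem_range.2 (by omega)⟩)
    have h3 : 0 ≤ siz P Q p k := by
      obtain ⟨D, hD1, hD2⟩ := exists_parts' hP hQ p
      rw [← hD2]
      exact D.m_nonneg k
    exact (mul_le_mul_of_nonneg_right h2 h3).trans h1
  · rw [siz_zero hP hQ p hk, mul_zero]
    exact Real.sqrt_nonneg _

end

end Pool.Agent.Q62.HU
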