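import Pool.Agent.Q62.HU.Env
import Pool.Agent.W960.HQ.Zq

/-! The count of all closed orbits, on average over the rotations. -/

open Real Set MeasureTheory Topology Filter
open scoped ENNReal

namespace Pool.Agent.Q62.HU

noncomputable section

open Pool.Agent.H709R2 (rot wedge field ClosedOrbit)
open Pool.Agent.H709U Pool.Agent.W960.HQ
open Pool.Agent.H709Q (Maj majRules)

variable {n : ℕ} {P Q : MvPolynomial (Fin 2) ℝ} {p : ℝ × ℝ}

/-- the parts which dominate by a factor `2 n / c` at some scale are large in all directions -/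
def Well (D : Parts n P Q p) (c : ℝ) : Prop := ∀ k ∈ Finset.range (n + 1), 0 < D.m k →
  (∃ u, D.Dom (log (2 * n / c)) k u) → Def D c k

lemma exp_neg_log {n : ℕ} (hn : 1 ≤ n) {c : ℝ} (hc0 : 0 < c) :
    exp (-log (2 * n / c)) = c / (2 * n) := by
  have hn' : (0:ℝ) < n := by exact_mod_cast hn
  rw [exp_neg, exp_log (by positivity), inv_div]

lemma zone_one {n : ℕ} {P Q : MvPolynomial (Fin 2) ℝ} {p : ℝ × ℝ} (D : Parts n P Q p)
    (hn : 1 ≤ n) {c : ℝ} (hc0 : 0 < c) (hW : Well D c) {k : ℕ} (hk : k ∈ Finset.range (n + 1))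
    (hm : 0 < D.m k) :
    Maj (fun α => ({C | ZC D (log (2 * n / c)) k α C}.encard : ℝ≥0∞)) (11 * n) := by
  have hn' : (0:ℝ) < n := by exact_mod_cast hn
  have hπ := Real.pi_pos
  by_cases hex : ∃ u, D.Dom (log (2 * n / c)) k u
  · have H : Hyp D (log (2 * n / c)) c k := by
      refine ⟨hk, hm, hc0, hW k hk hm hex, ?_⟩
      rw [exp_neg_log hn hc0]
      apply le_of_eq
      field_simp
    have h1 := maj_zone H (Hf := Ioc 0 (π / 2)) (fun α hα β hβ => by
      rw [abs_le]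
      constructor <;> linarith [hα.1, hα.2, hβ.1, hβ.2])
    have h2 := maj_zone H (Hf := Ioo (π / 2) π) (fun α hα β hβ => by
      rw [abs_le]
      constructor <;> linarith [hα.1, hα.2, hβ.1, hβ.2])
    have hK : π * n ^ 2 / c * exp (-log (2 * n / c)) * (10 / 3) = 5 / 3 * π * n := by
      rw [exp_neg_log hn hc0]
      field_simp
      ring
    rw [hK] at h1 h2
    have h3 := majRules.2.1 _ _ _ _ (by positivity) (by positivity) h1 h2
    refine Z1aux.maj_mono (fun α hα => ?_) ?_ h3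
    · simp only [cnt]
      rcases le_or_gt α (π / 2) with h | h
      · rw [indicator_of_mem (show α ∈ Ioc 0 (π / 2) from ⟨hα.1, h⟩)]
        exact le_self_add
      · rw [indicator_of_mem (show α ∈ Ioo (π / 2) π from ⟨h, hα.2⟩)]
        exact le_add_self
    · have := Real.pi_lt_d2
      nlinarith
  · refine ⟨fun _ => 0, measurable_const, fun α _ => ?_, by simp⟩
    have : {C | ZC D (log (2 * n / c)) k α C} = ∅ := by
      rw [eq_empty_iff_forall_notMem]
      rintro C hC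
      obtain ⟨γ, T, -, -, -, -, hr⟩ := hC.orb
      exact hex ⟨_, hC.dom (γ 0) (by rw [hr]; exact ⟨0, rfl⟩)⟩
    simp only [this, encard_empty]
    simp

/-- **One zero of the field.** -/
theorem one_zero (hP : P.totalDegree ≤ n) (hQ : Q.totalDegree ≤ n) (hn : 1 ≤ n)
    (D : Parts n P Q p) (hpos : ∃ k ∈ Finset.range (n + 1), 0 < D.m k) {c : ℝ} (hc0 : 0 < c)
    (hc1 : c ≤ 1) (hW : Well D c) :
    Maj (fun α => ({C | C ∈ Cl P Q α ∧ InBox p C ∧ p ∉ C}.encard : ℝ≥0∞))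
      (16000 * (n * (n + 1)) * (1 + log (2 * n / c))) := by
  classical
  have hn' : (1:ℝ) ≤ n := by exact_mod_cast hn
  obtain ⟨s, hs⟩ : ∃ s, s = log (2 * n / c) := ⟨_, rfl⟩
  have hs0 : 0 < s := by
    rw [hs]
    apply Real.log_pos
    rw [lt_div_iff₀ hc0]
    linarith
  set J : ℕ := ⌊2 * s⌋₊ with hJ
  have hJ' : ((J + 1 : ℕ) : ℝ) ≤ 2 * s + 1 := by
    have := Nat.floor_le (by linarith : (0:ℝ) ≤ 2 * s)
    push_cast
    linarith
  set HS : ℝ → ℝ → Set (Set (ℝ × ℝ)) := fun v α => {C | C ∈ Cl P Q α ∧ InBox p C ∧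
    p ∉ C ∧ ∃ z ∈ C, v ≤ lg p z ∧ lg p z ≤ v + 1} with hHS
  set K : Finset ℕ := (Finset.range (n + 1)).filter (fun k => 0 < D.m k) with hK
  have hcover : ∀ α, {C | C ∈ Cl P Q α ∧ InBox p C ∧ p ∉ C} ⊆
      (⋃ b ∈ brks D, ⋃ j ∈ Finset.range (J + 1), HS (b - s + j) α) ∪
        ⋃ k ∈ K, {C | ZC D s k α C} := by
    rintro α C ⟨hC, hbox, hpC⟩
    by_cases hcase : ∀ z ∈ C, ∀ b ∈ brks D, s < |lg p z - b|
    · right
      obtain ⟨k, hk, hmk, hdom⟩ := dom_orbit' D hpos hs0 hC hpC hcase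
      simp only [mem_iUnion]
      exact ⟨k, Finset.mem_filter.2 ⟨hk, hmk⟩, hC, hpC, hdom⟩
    · left
      push Not at hcase
      obtain ⟨z, hz, b, hb, hle⟩ := hcase
      have h1 := (abs_le.1 hle).1
      have h2 := (abs_le.1 hle).2
      have ht0 : 0 ≤ lg p z - (b - s) := by linarith
      have ht1 : lg p z - (b - s) ≤ 2 * s := by linarith
      simp only [mem_iUnion]
      refine ⟨b, hb, ⌊lg p z - (b - s)⌋₊, ?_, hC, hbox, hpC, z, hz, ?_, ?_⟩
      · rw [Finset.mem_range, Nat.lt_succ_iff]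
        exact Nat.floor_le_floor ht1
      · have := Nat.floor_le ht0
        linarith
      · have := Nat.lt_floor_add_one (lg p z - (b - s))
        linarith
  have hle : ∀ α, (({C | C ∈ Cl P Q α ∧ InBox p C ∧ p ∉ C}.encard : ℕ∞) : ℝ≥0∞) ≤
      (∑ b ∈ brks D, ∑ j ∈ Finset.range (J + 1), ((HS (b - s + j) α).encard : ℝ≥0∞)) +
        ∑ k ∈ K, ({C | ZC D s k α C}.encard : ℝ≥0∞) := by
    intro α
    refine (ENat.toENNReal_le.2 (encard_le_encard (hcover α))).trans ?_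
    refine (ENat.toENNReal_le.2 (encard_union_le _ _)).trans ?_
    rw [ENat.toENNReal_add]
    refine add_le_add ?_ (encard_biUnion_le' _ _ _ subset_rfl)
    refine (encard_biUnion_le' _ _ _ subset_rfl).trans ?_
    exact Finset.sum_le_sum fun b _ => encard_biUnion_le' _ _ _ subset_rfl
  have h8 : (0 : ℝ) ≤ 8000 * (n + 1) := by positivity
  have hM1 : Maj (fun α => ∑ b ∈ brks D, ∑ j ∈ Finset.range (J + 1),
      ((HS (b - s + j) α).encard : ℝ≥0∞))
      (∑ b ∈ brks D, ∑ j ∈ Finset.range (J + 1), (8000 * ((n : ℝ) + 1))) := by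
    refine Z1aux.maj_sum _ _ _ (fun _ _ => Finset.sum_nonneg fun _ _ => h8) fun b _ => ?_
    exact Z1aux.maj_sum _ _ _ (fun _ _ => h8) fun j _ => h4' n P Q hP hQ p _
  have hM2 : Maj (fun α => ∑ k ∈ K, ({C | ZC D s k α C}.encard : ℝ≥0∞))
      (∑ k ∈ K, 11 * (n:ℝ)) := by
    refine Z1aux.maj_sum _ _ _ (fun _ _ => by positivity) fun k hk => ?_
    rw [hK, Finset.mem_filter] at hk
    rw [hs]
    exact zone_one D hn hc0 hW hk.1 hk.2
  have hM := majRules.2.1 _ _ _ _ (Finset.sum_nonneg fun _ _ => Finset.sum_nonneg fun _ _ => h8)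
    (Finset.sum_nonneg fun _ _ => by positivity) hM1 hM2
  refine Z1aux.maj_mono (fun α _ => hle α) ?_ hM
  rw [← hs, Finset.sum_const, Finset.sum_const, Finset.sum_const, Finset.card_range, nsmul_eq_mul,
    nsmul_eq_mul, nsmul_eq_mul]
  have c1 : ((brks D).card : ℝ) ≤ n := by exact_mod_cast card_brks D
  have c2 : (K.card : ℝ) ≤ n + 1 := by
    have := Finset.card_filter_le (Finset.range (n + 1)) (fun k => 0 < D.m k)
    rw [Finset.card_range] at this
    exact_mod_cast this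
  have e1 : ((J + 1 : ℕ) : ℝ) * (8000 * ((n:ℝ) + 1)) ≤ (2 * s + 1) * (8000 * (n + 1)) :=
    mul_le_mul_of_nonneg_right hJ' h8
  have e2 : ((brks D).card : ℝ) * (((J + 1 : ℕ) : ℝ) * (8000 * ((n:ℝ) + 1))) ≤
      n * ((2 * s + 1) * (8000 * (n + 1))) :=
    mul_le_mul c1 e1 (by positivity) (by positivity)
  have e3 : (K.card : ℝ) * (11 * n) ≤ (n + 1) * (11 * n) :=
    mul_le_mul_of_nonneg_right c2 (by positivity)
  nlinarith

/-- **The number of all closed orbits**, on average over the rotations. -/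
theorem main (hP : P.totalDegree ≤ n) (hQ : Q.totalDegree ≤ n) (hn : 1 ≤ n)
    (hPQ : IsRelPrime P Q) {c : ℝ} (hc0 : 0 < c) (hc1 : c ≤ 1)
    (hW : ∀ p, field P Q p = 0 → ∃ D : Parts n P Q p, Well D c) :
    Maj (fun α => ((Cl P Q α).encard : ℝ≥0∞))
      (16000 * (n ^ 3 * (n + 1)) * (1 + log (2 * n / c))) := by
  classical
  have hn' : (1:ℝ) ≤ n := by exact_mod_cast hn
  obtain ⟨Z, hZc, hZ⟩ := b3 n P Q hP hQ hPQ
  have hcd : ContDiff ℝ 2 (field P Q) := H709R2.contDiff_field P Q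
  have hlog : 0 ≤ log (2 * n / c) := by
    apply Real.log_nonneg
    rw [le_div_iff₀ hc0]
    linarith
  have hB : (0:ℝ) ≤ 16000 * (n * (n + 1)) * (1 + log (2 * n / c)) := by positivity
  have h1 : ∀ p ∈ Z, Maj (fun α => ({C | C ∈ Cl P Q α ∧ InBox p C ∧ p ∉ C}.encard : ℝ≥0∞))
      (16000 * (n * (n + 1)) * (1 + log (2 * n / c))) := by
    intro p hp
    obtain ⟨D, hD⟩ := hW p ((hZ p).2 hp)
    exact one_zero hP hQ hn D (exists_pos D fun z hz => (hZ z).1 hz) hc0 hc1 hD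
  have h2 := Z1aux.maj_sum Z _ _ (fun _ _ => hB) h1
  refine Z1aux.maj_mono (fun α _ => ?_) ?_ h2
  · apply encard_biUnion_le'
    intro C hC
    obtain ⟨p, hp0, hbox⟩ := t3' (field P Q) hcd α C hC
    have hpC : p ∉ C := by
      intro hpC
      obtain ⟨γ, T, hO, hCr⟩ := m0 (field P Q) hcd α C hC
      rw [hCr] at hpC
      obtain ⟨t, ht⟩ := hpC
      apply hO.ne t
      rw [ht, rf, hp0, Z1aux.rot_zero']
    simp only [mem_iUnion]
    exact ⟨p, (hZ p).1 hp0, hC, hbox, hpC⟩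
  · rw [Finset.sum_const, nsmul_eq_mul]
    have h3 : (Z.card : ℝ) ≤ n ^ 2 := by exact_mod_cast hZc
    refine (mul_le_mul_of_nonneg_right h3 hB).trans (le_of_eq ?_)
    ring

end

end Pool.Agent.Q62.HU
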