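import Pool.Agent.Q62.HU.Dir

/-! Two closed orbits in the same zone of dominance are compared by their inner (outer) radii. -/

open Real Set MeasureTheory Topology Filter

namespace Pool.Agent.Q62.HU

noncomputable section

open Pool.Agent.H709R2 (rot wedge field ClosedOrbit)
open Pool.Agent.H709U Pool.Agent.W960.HQ

lemma Cur.smul {a a' : ℝ → ℂ} {T : ℝ} (h : Cur a a' T) (r : ℝ) :
    Cur (fun t => r • a t) (fun t => r • a' t) T where
  pos := h.pos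
  der t := (h.der t).const_smul r
  cont := h.cont.const_smul r
  per t := by simp only [h.per t]

lemma Wn_smul {a a' : ℝ → ℂ} {T : ℝ} {r : ℝ} (hr : r ≠ 0) :
    Wn (fun t => r • a t) (fun t => r • a' t) T 0 = Wn a a' T 0 := by
  unfold Wn
  congr 1
  funext t
  show (r • a' t) / (r • a t - 0) = a' t / (a t - 0)
  rw [sub_zero, sub_zero, Complex.real_smul, Complex.real_smul]
  have : (r:ℂ) ≠ 0 := by exact_mod_cast hr
  exact mul_div_mul_left _ _ this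

variable {n : ℕ} {P Q : MvPolynomial (Fin 2) ℝ} {p : ℝ × ℝ}

/-- a closed orbit of the rotated field in a zone where the part of degree `k` dominates -/
structure ZC (D : Parts n P Q p) (s : ℝ) (k : ℕ) (α : ℝ) (C : Set (ℝ × ℝ)) : Prop where
  orb : ClosedOrbit (rf (field P Q) α) C
  np : p ∉ C
  dom : ∀ z ∈ C, D.Dom s k (lg p z)

/-- the logarithm of the inner radius -/
def mn (p : ℝ × ℝ) (C : Set (ℝ × ℝ)) : ℝ := sInf (lg p '' C)

/-- the logarithm of the outer radius -/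
def mx (p : ℝ × ℝ) (C : Set (ℝ × ℝ)) : ℝ := sSup (lg p '' C)

/-- the standing hypotheses -/
structure Hyp (D : Parts n P Q p) (s c : ℝ) (k : ℕ) : Prop where
  hk : k ∈ Finset.range (n + 1)
  hm : 0 < D.m k
  hc0 : 0 < c
  hc : Def D c k
  hs : n * exp (-s) ≤ c / 2

/-- the curve of a closed orbit -/
structure Cv (D : Parts n P Q p) (α : ℝ) (C : Set (ℝ × ℝ)) (γ : ℝ → ℝ × ℝ) (T : ℝ) : Prop where
  orb : Orb (rf (field P Q) α) γ T
  rg : C = range γ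
  ne : ∀ t, γ t ≠ p
  cur : Cur (fun t => ec (γ t - p)) (fun t => ec (rf (field P Q) α (γ t))) T
  wd : Wn (fun t => ec (γ t - p)) (fun t => ec (rf (field P Q) α (γ t))) T 0 ≠ 0
  n0 : (0:ℂ) ∉ range (fun t => ec (γ t - p))
  lo : ∃ t₀, lg p (γ t₀) = mn p C ∧ ∀ t, mn p C ≤ lg p (γ t)
  hi : ∃ t₁, lg p (γ t₁) = mx p C ∧ ∀ t, lg p (γ t) ≤ mx p C

lemma exists_cv {D : Parts n P Q p} {s c : ℝ} {k : ℕ} (H : Hyp D s c k) {α : ℝ}
    {C : Set (ℝ × ℝ)} (h : ZC D s k α C) : ∃ γ T, Cv D α C γ T := by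
  have hX2 : ContDiff ℝ 2 (field P Q) := H709R2.contDiff_field P Q
  obtain ⟨γ, T, hO, hr⟩ := m0 (field P Q) hX2 α C h.orb
  have hne : ∀ t, γ t ≠ p := fun t h0 => h.np (by rw [hr]; exact ⟨t, h0⟩)
  have hcur := cur_of_orb hX2.continuous p hO
  have hn0 : (0:ℂ) ∉ range (fun t => ec (γ t - p)) := by
    rintro ⟨t, ht⟩
    replace ht : ec (γ t - p) = 0 := ht
    rw [map_eq_zero_iff ec ec.injective] at ht
    exact hne t (sub_eq_zero.1 ht)
  have hγ := orb_cont hO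
  have hc : Continuous fun t => lg p (γ t) := by
    unfold lg H709R2.sq
    refine Continuous.div_const ?_ _
    refine Continuous.log (by fun_prop) fun t => ?_
    exact (H709R2.sq_pos (sub_ne_zero.2 (hne t))).ne'
  have hcomp : IsCompact (lg p '' C) := by
    have h1 : lg p '' C = (fun t => lg p (γ t)) '' Icc 0 T := by
      rw [hr]
      ext x
      constructor
      · rintro ⟨_, ⟨t, rfl⟩, rfl⟩
        obtain ⟨s, hs, hst⟩ := Function.Periodic.exists_mem_Ico (f := γ) hO.per hO.pos t 0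
        rw [zero_add] at hs
        exact ⟨s, ⟨hs.1, hs.2.le⟩, by simp only [hst]⟩
      · rintro ⟨s, -, rfl⟩
        exact ⟨γ s, ⟨s, rfl⟩, rfl⟩
    rw [h1]
    exact isCompact_Icc.image hc
  have hne' : (lg p '' C).Nonempty := ⟨lg p (γ 0), γ 0, by rw [hr]; exact ⟨0, rfl⟩, rfl⟩
  have hlo : ∃ t₀, lg p (γ t₀) = mn p C ∧ ∀ t, mn p C ≤ lg p (γ t) := by
    obtain ⟨z, hz, hz'⟩ := hcomp.sInf_mem hne'
    rw [hr] at hz
    obtain ⟨t, rfl⟩ := hz
    exact ⟨t, hz', fun t' => csInf_le hcomp.bddBelow ⟨γ t', by rw [hr]; exact ⟨t', rfl⟩, rfl⟩⟩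
  have hhi : ∃ t₁, lg p (γ t₁) = mx p C ∧ ∀ t, lg p (γ t) ≤ mx p C := by
    obtain ⟨z, hz, hz'⟩ := hcomp.sSup_mem hne'
    rw [hr] at hz
    obtain ⟨t, rfl⟩ := hz
    exact ⟨t, hz', fun t' => le_csSup hcomp.bddAbove ⟨γ t', by rw [hr]; exact ⟨t', rfl⟩, rfl⟩⟩
  refine ⟨γ, T, hO, hr, hne, hcur, ?_, hn0, hlo, hhi⟩
  obtain ⟨t₀, ht₀, hmn⟩ := hlo
  obtain ⟨t₁, ht₁, hmx⟩ := hhi
  have hI : (range fun t => lg p (γ t)).OrdConnected := (isPreconnected_range hc).ordConnected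
  refine wind_ne t1 hX2.continuous hO (u₀ := mn p C) (u₁ := mx p C) ?_ ?_ hne hmn hmx
  · intro z hz h1 h2
    obtain ⟨t, ht⟩ := hI.out ⟨t₀, ht₀⟩ ⟨t₁, ht₁⟩ ⟨h1, h2⟩
    replace ht : lg p (γ t) = lg p z := ht
    refine field_ne D H.hk H.hm hz (s := s) ?_ H.hc0 H.hc H.hs
    rw [← ht]
    exact h.dom _ (by rw [hr]; exact ⟨t, rfl⟩)
  · exact (hmn t₁).trans (hmx t₁)

/-- a tangency after a dilation compares the angles -/
lemma pair_of_meet {D : Parts n P Q p} {s c : ℝ} {k : ℕ} (H : Hyp D s c k) {α β : ℝ}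
    (hαβ : |β - α| ≤ π / 2) {C C' : Set (ℝ × ℝ)} (h : ZC D s k α C) (h' : ZC D s k β C')
    {γ δ : ℝ → ℝ × ℝ} {T S : ℝ} (hc : Cv D α C γ T) (hc' : Cv D β C' δ S)
    (hd : ∀ s t, ec (γ s - p) ≠ ec (δ t - p)) {τ : ℝ}
    (hτ : ∃ s t, ec (δ t - p) = exp τ • ec (γ s - p)) :
    |β - α| ≤ π * n ^ 2 / c * exp (-s) * |τ| := by
  obtain ⟨τ₀, hτ₀, x, y, hxy, hw⟩ := touch hc.cur hc'.cur hd hτ
  obtain ⟨θ, hθ⟩ := exists_pt (hc.ne x)
  have h1 : δ y = pt p (lg p (γ x) + τ₀) θ := by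
    have h2 : δ y - p = exp τ₀ • (γ x - p) := by
      apply ec.injective
      rw [hxy, ← map_smul]
    rw [sub_eq_iff_eq_add] at h2
    rw [h2]
    conv_lhs => rw [hθ]
    unfold pt
    refine Prod.ext ?_ ?_
    · simp only [Prod.fst_add, Prod.smul_fst, Prod.fst_sub, smul_eq_mul, exp_add]
      ring
    · simp only [Prod.snd_add, Prod.smul_snd, Prod.snd_sub, smul_eq_mul, exp_add]
      ring
  have h2 : lg p (δ y) = lg p (γ x) + τ₀ := by rw [h1, lg_pt]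
  have hu : D.Dom s k (lg p (γ x)) := h.dom _ (by rw [hc.rg]; exact ⟨x, rfl⟩)
  have hv : D.Dom s k (lg p (γ x) + τ₀) := by
    rw [← h2]
    exact h'.dom _ (by rw [hc'.rg]; exact ⟨y, rfl⟩)
  rw [h1] at hw
  have hw' : wg (ec (rf (field P Q) α (pt p (lg p (γ x)) θ)))
      (ec (rf (field P Q) β (pt p (lg p (γ x) + τ₀) θ))) = 0 := by
    rw [← hθ]
    exact hw
  have h3 := ang_le D H.hk H.hm hu hv H.hc0 H.hc H.hs hαβ hw'
  rw [add_sub_cancel_left] at h3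
  refine h3.trans (mul_le_mul_of_nonneg_left ?_ ?_)
  · have := abs_sub_left_of_mem_uIcc hτ₀
    rwa [sub_zero, sub_zero] at this
  · have := H.hc0
    positivity

lemma cv_disjoint {D : Parts n P Q p} {α β : ℝ} (hαβ : |β - α| ≤ π / 2) {C C' : Set (ℝ × ℝ)}
    (hne : C ≠ C') {γ δ : ℝ → ℝ × ℝ} {T S : ℝ} (hc : Cv D α C γ T) (hc' : Cv D β C' δ S) :
    ∀ s t, ec (γ s - p) ≠ ec (δ t - p) := by
  intro s t hst
  refine orb_disjoint (H709R2.contDiff_field P Q) hc.orb hc'.orb ?_ ?_ s t ?_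
  · rw [← hc.rg, ← hc'.rg]
    exact hne
  · have := Real.pi_pos
    linarith
  · have := ec.injective hst
    exact sub_left_injective this

/-- the inner radii determine the closed orbits, and the angle is a Lipschitz function -/
theorem pair_min {D : Parts n P Q p} {s c : ℝ} {k : ℕ} (H : Hyp D s c k) {α β : ℝ}
    (hαβ : |β - α| ≤ π / 2) {C C' : Set (ℝ × ℝ)} (h : ZC D s k α C) (h' : ZC D s k β C')
    (hne : C ≠ C') : mn p C ≠ mn p C' ∧
      |β - α| ≤ π * n ^ 2 / c * exp (-s) * |mn p C' - mn p C| := by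
  obtain ⟨γ, T, hc⟩ := exists_cv H h
  obtain ⟨δ, S, hc'⟩ := exists_cv H h'
  have hd := cv_disjoint hαβ hne hc hc'
  obtain ⟨s₀, hs₀, hs⟩ := hc.lo
  obtain ⟨t₀, ht₀, ht⟩ := hc'.lo
  have na : ∀ t, ‖ec (γ t - p)‖ = exp (lg p (γ t)) := fun t => norm_ec_sub (hc.ne t)
  have nb : ∀ t, ‖ec (δ t - p)‖ = exp (lg p (δ t)) := fun t => norm_ec_sub (hc'.ne t)
  have hsa : ∀ t, ‖ec (γ s₀ - p)‖ ≤ ‖ec (γ t - p)‖ := fun t => by
    rw [na, na, hs₀, exp_le_exp]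
    exact hs t
  have htb : ∀ t, ‖ec (δ t₀ - p)‖ ≤ ‖ec (δ t - p)‖ := fun t => by
    rw [nb, nb, ht₀, exp_le_exp]
    exact ht t
  constructor
  · intro heq
    refine min_ne hc.cur hc'.cur hd hc.n0 hc'.n0 hc.wd hc'.wd (s₀ := s₀) (t₀ := t₀) hsa htb ?_
    rw [na, nb, hs₀, ht₀, heq]
  · refine pair_of_meet H hαβ h h' hc hc' hd ?_
    by_contra hcon
    push Not at hcon
    have hr : exp (mn p C' - mn p C) ≠ 0 := (exp_pos _).ne'
    refine min_ne (hc.cur.smul (exp (mn p C' - mn p C))) hc'.cur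
      (fun s t h0 => hcon s t h0.symm) ?_ hc'.n0 ?_ hc'.wd (s₀ := s₀) (t₀ := t₀) ?_ htb ?_
    · rintro ⟨t, h0⟩
      replace h0 : exp (mn p C' - mn p C) • ec (γ t - p) = 0 := h0
      exact hc.n0 ⟨t, (smul_eq_zero.1 h0).resolve_left hr⟩
    · rw [Wn_smul hr]
      exact hc.wd
    · intro t
      rw [norm_smul, norm_smul]
      exact mul_le_mul_of_nonneg_left (hsa t) (norm_nonneg _)
    · rw [norm_smul, na, nb, hs₀, ht₀, Real.norm_of_nonneg (exp_pos _).le, ← exp_add]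
      congr 1
      ring

/-- the outer radii determine the closed orbits, and the angle is a Lipschitz function -/
theorem pair_max {D : Parts n P Q p} {s c : ℝ} {k : ℕ} (H : Hyp D s c k) {α β : ℝ}
    (hαβ : |β - α| ≤ π / 2) {C C' : Set (ℝ × ℝ)} (h : ZC D s k α C) (h' : ZC D s k β C')
    (hne : C ≠ C') : mx p C ≠ mx p C' ∧
      |β - α| ≤ π * n ^ 2 / c * exp (-s) * |mx p C' - mx p C| := by
  obtain ⟨γ, T, hc⟩ := exists_cv H h
  obtain ⟨δ, S, hc'⟩ := exists_cv H h'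
  have hd := cv_disjoint hαβ hne hc hc'
  obtain ⟨s₀, hs₀, hs⟩ := hc.hi
  obtain ⟨t₀, ht₀, ht⟩ := hc'.hi
  have na : ∀ t, ‖ec (γ t - p)‖ = exp (lg p (γ t)) := fun t => norm_ec_sub (hc.ne t)
  have nb : ∀ t, ‖ec (δ t - p)‖ = exp (lg p (δ t)) := fun t => norm_ec_sub (hc'.ne t)
  have hsa : ∀ t, ‖ec (γ t - p)‖ ≤ ‖ec (γ s₀ - p)‖ := fun t => by
    rw [na, na, hs₀, exp_le_exp]
    exact hs t
  have htb : ∀ t, ‖ec (δ t - p)‖ ≤ ‖ec (δ t₀ - p)‖ := fun t => by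
    rw [nb, nb, ht₀, exp_le_exp]
    exact ht t
  constructor
  · intro heq
    refine max_ne hc.cur hc'.cur hd hc.n0 hc'.n0 hc.wd hc'.wd (s₀ := s₀) (t₀ := t₀) hsa htb ?_
    rw [na, nb, hs₀, ht₀, heq]
  · refine pair_of_meet H hαβ h h' hc hc' hd ?_
    by_contra hcon
    push Not at hcon
    have hr : exp (mx p C' - mx p C) ≠ 0 := (exp_pos _).ne'
    refine max_ne (hc.cur.smul (exp (mx p C' - mx p C))) hc'.cur
      (fun s t h0 => hcon s t h0.symm) ?_ hc'.n0 ?_ hc'.wd (s₀ := s₀) (t₀ := t₀) ?_ htb ?_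
    · rintro ⟨t, h0⟩
      replace h0 : exp (mx p C' - mx p C) • ec (γ t - p) = 0 := h0
      exact hc.n0 ⟨t, (smul_eq_zero.1 h0).resolve_left hr⟩
    · rw [Wn_smul hr]
      exact hc.wd
    · intro t
      rw [norm_smul, norm_smul]
      exact mul_le_mul_of_nonneg_left (hsa t) (norm_nonneg _)
    · rw [norm_smul, na, nb, hs₀, ht₀, Real.norm_of_nonneg (exp_pos _).le, ← exp_add]
      congr 1
      ring

end

end Pool.Agent.Q62.HU
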