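import Pool.Agent.Q62.HU.Wind

/-! Dilating a closed curve until it touches another one. -/

open Set MeasureTheory Topology Filter

namespace Pool.Agent.Q62.HU

/-- the oriented area of two complex numbers -/
def wg (z w : ℂ) : ℝ := z.re * w.im - z.im * w.re

variable {a a' b b' : ℝ → ℂ} {T S : ℝ}

lemma Cur.strict (h : Cur a a' T) (t : ℝ) : HasStrictDerivAt a (a' t) t :=
  hasStrictDerivAt_of_hasDerivAt_of_continuousAt (Eventually.of_forall h.der) h.cont.continuousAt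

lemma cramer {p q W : ℂ} {E : ℝ} (hE : E ≠ 0) (hw : wg p q ≠ 0) :
    ∃ x y : ℝ, y • q - (E * x) • p = W := by
  obtain ⟨D, hD⟩ : ∃ D, D = wg p q := ⟨_, rfl⟩
  rw [← hD] at hw
  have hD' : D = p.re * q.im - p.im * q.re := hD
  refine ⟨wg q W / (D * E), wg p W / D, ?_⟩
  have e1 : E * (wg q W / (D * E)) = wg q W / D := by field_simp
  rw [e1]
  refine Complex.ext ?_ ?_
  · rw [Complex.sub_re, Complex.smul_re, Complex.smul_re, smul_eq_mul, smul_eq_mul]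
    unfold wg
    field_simp
    rw [hD']
    ring
  · rw [Complex.sub_im, Complex.smul_im, Complex.smul_im, smul_eq_mul, smul_eq_mul]
    unfold wg
    field_simp
    rw [hD']
    ring

/-- transversal meetings persist -/
lemma open_touch (ha : Cur a a' T) (hb : Cur b b' S) {s₀ t₀ τ₀ : ℝ} (hw : wg (a' s₀) (b' t₀) ≠ 0)
    (h : b t₀ = Real.exp τ₀ • a s₀) : ∀ᶠ σ in 𝓝 τ₀, ∃ s t, b t = Real.exp σ • a s := by
  set G : (ℝ × ℝ) × ℝ → ℂ × ℝ := fun x => (b x.1.2 - Real.exp x.2 • a x.1.1, x.2) with hG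
  set x₀ : (ℝ × ℝ) × ℝ := ((s₀, t₀), τ₀) with hx₀
  have hfst : HasStrictFDerivAt (fun x : (ℝ × ℝ) × ℝ => x.1.1)
      ((ContinuousLinearMap.fst ℝ ℝ ℝ).comp (ContinuousLinearMap.fst ℝ (ℝ × ℝ) ℝ)) x₀ :=
    ((ContinuousLinearMap.fst ℝ ℝ ℝ).comp (ContinuousLinearMap.fst ℝ (ℝ × ℝ) ℝ)).hasStrictFDerivAt
  have hsnd : HasStrictFDerivAt (fun x : (ℝ × ℝ) × ℝ => x.1.2)
      ((ContinuousLinearMap.snd ℝ ℝ ℝ).comp (ContinuousLinearMap.fst ℝ (ℝ × ℝ) ℝ)) x₀ :=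
    ((ContinuousLinearMap.snd ℝ ℝ ℝ).comp (ContinuousLinearMap.fst ℝ (ℝ × ℝ) ℝ)).hasStrictFDerivAt
  have hth : HasStrictFDerivAt (fun x : (ℝ × ℝ) × ℝ => x.2)
      (ContinuousLinearMap.snd ℝ (ℝ × ℝ) ℝ) x₀ :=
    (ContinuousLinearMap.snd ℝ (ℝ × ℝ) ℝ).hasStrictFDerivAt
  have h1 := (ha.strict s₀).hasStrictFDerivAt.comp x₀ hfst
  have h2 := (hb.strict t₀).hasStrictFDerivAt.comp x₀ hsnd
  have h3 := (Real.hasStrictDerivAt_exp τ₀).hasStrictFDerivAt.comp x₀ hth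
  have h4 := (h2.sub (h3.smul h1)).prodMk hth
  suffices hsurj : _ from by
    have h5 := HasStrictFDerivAt.map_nhds_eq_of_surj h4 hsurj
    have h6 : G x₀ = (0, τ₀) := by
      simp only [hG, hx₀]
      rw [h, sub_self]
    have h7 : range G ∈ 𝓝 ((0, τ₀) : ℂ × ℝ) := by
      rw [← h6]
      have h8 : map G (𝓝 x₀) = 𝓝 (G x₀) := h5
      rw [← h8]
      exact range_mem_map
    have h9 : Tendsto (fun σ : ℝ => ((0, σ) : ℂ × ℝ)) (𝓝 τ₀) (𝓝 (0, τ₀)) :=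
      (Continuous.prodMk_right (0:ℂ)).tendsto τ₀
    filter_upwards [h9 h7] with σ hσ
    obtain ⟨⟨⟨s, t⟩, r⟩, hx⟩ := hσ
    simp only [hG, Prod.mk.injEq] at hx
    obtain ⟨hx1, rfl⟩ := hx
    exact ⟨s, t, sub_eq_zero.1 hx1⟩
  · rw [LinearMap.range_eq_top]
    rintro ⟨w, r⟩
    obtain ⟨x, y, hxy⟩ := cramer (W := w + (r * Real.exp τ₀) • a s₀) (Real.exp_pos τ₀).ne' hw
    refine ⟨((x, y), r), ?_⟩
    refine Prod.ext ?_ rfl
    show y • b' t₀ - (Real.exp τ₀ • (x • a' s₀) + (r * Real.exp τ₀) • a s₀) = w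
    rw [smul_smul, ← sub_sub, hxy, add_sub_cancel_right]

/-- **Touching.** A closed curve is dilated until it meets another, disjoint one; then there is a
smaller dilation for which the two curves are tangent. -/
theorem touch (ha : Cur a a' T) (hb : Cur b b' S) (hd : ∀ s t, a s ≠ b t) {τ : ℝ}
    (hτ : ∃ s t, b t = Real.exp τ • a s) :
    ∃ τ₀ ∈ uIcc 0 τ, ∃ s t, b t = Real.exp τ₀ • a s ∧ wg (a' s) (b' t) = 0 := by
  set K : Set (ℝ × ℂ) := {x | x ∈ uIcc 0 τ ×ˢ range a ∧ Real.exp x.1 • x.2 ∈ range b} with hK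
  have hKc : IsCompact K := by
    have h1 : IsCompact (uIcc 0 τ ×ˢ range a) := isCompact_uIcc.prod ha.compact
    have h2 : IsClosed {x : ℝ × ℂ | Real.exp x.1 • x.2 ∈ range b} :=
      hb.compact.isClosed.preimage (by fun_prop)
    exact h1.inter_right h2
  have hKn : K.Nonempty := by
    obtain ⟨s, t, hst⟩ := hτ
    exact ⟨(τ, a s), ⟨⟨right_mem_uIcc, ⟨s, rfl⟩⟩, ⟨t, hst⟩⟩⟩
  obtain ⟨⟨τ₀, z⟩, ⟨⟨hτ₀, s, rfl⟩, t, ht⟩, hmin⟩ := hKc.exists_isMinOn hKn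
    (f := fun x : ℝ × ℂ => |x.1|) (by fun_prop)
  simp only at ht hτ₀
  refine ⟨τ₀, hτ₀, s, t, ht, ?_⟩
  by_contra hw
  have hτ0 : τ₀ ≠ 0 := by
    rintro rfl
    rw [Real.exp_zero, one_smul] at ht
    exact hd s t ht.symm
  have h1 := open_touch ha hb hw ht
  have h2 : Tendsto (fun ε : ℝ => (1 - ε) * τ₀) (𝓝[>] 0) (𝓝 τ₀) := by
    have : Tendsto (fun ε : ℝ => (1 - ε) * τ₀) (𝓝 0) (𝓝 ((1 - 0) * τ₀)) := by
      apply Continuous.tendsto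
      fun_prop
    rw [sub_zero, one_mul] at this
    exact this.mono_left nhdsWithin_le_nhds
  have h3 : ∀ᶠ ε : ℝ in 𝓝[>] 0, ε < 1 := by
    filter_upwards [Ioo_mem_nhdsGT (show (0:ℝ) < 1 by norm_num)] with ε hε
    exact hε.2
  obtain ⟨ε, ⟨⟨s', t', hst⟩, hε1⟩, hε0⟩ := ((h2.eventually h1).and h3).and self_mem_nhdsWithin |>.exists
  have hε0' : 0 < ε := hε0
  have hmem : (1 - ε) * τ₀ ∈ uIcc 0 τ := by
    have h4 : uIcc 0 τ₀ ⊆ uIcc 0 τ := uIcc_subset_uIcc left_mem_uIcc hτ₀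
    apply h4
    rcases le_total 0 τ₀ with h | h
    · rw [uIcc_of_le h]
      constructor <;> nlinarith
    · rw [uIcc_of_ge h]
      constructor <;> nlinarith
  have h5 := hmin (show ((1 - ε) * τ₀, a s') ∈ K from ⟨⟨hmem, ⟨s', rfl⟩⟩, ⟨t', hst⟩⟩)
  have h6 : |τ₀| ≤ |(1 - ε) * τ₀| := h5
  rw [abs_mul, abs_of_pos (by linarith : 0 < 1 - ε)] at h6
  have h7 : 0 < |τ₀| := abs_pos.2 hτ0
  nlinarith

end Pool.Agent.Q62.HU
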