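import Mathlib

/-! Winding integrals of closed curves in the complex plane, and two nested-curve lemmas. -/

open Set MeasureTheory Topology Filter

namespace Pool.Agent.Q62.HU

/-- a closed curve of class `C¹` in the complex plane with parameter period `T` -/
structure Cur (a a' : ℝ → ℂ) (T : ℝ) : Prop where
  pos : 0 < T
  der : ∀ t, HasDerivAt a (a' t) t
  cont : Continuous a'
  per : ∀ t, a (t + T) = a t

/-- the winding integral about `q` -/
noncomputable def Wn (a a' : ℝ → ℂ) (T : ℝ) (q : ℂ) : ℂ := ∫ t in (0:ℝ)..T, a' t / (a t - q)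

variable {a a' b b' : ℝ → ℂ} {T S : ℝ} {q : ℂ}

lemma Cur.ca (h : Cur a a' T) : Continuous a :=
  continuous_iff_continuousAt.2 fun t => (h.der t).continuousAt

lemma Cur.range_eq (h : Cur a a' T) : range a = a '' Icc 0 T := by
  ext z
  constructor
  · rintro ⟨t, rfl⟩
    obtain ⟨s, hs, hst⟩ := Function.Periodic.exists_mem_Ico (f := a) h.per h.pos t 0
    rw [zero_add] at hs
    exact ⟨s, ⟨hs.1, hs.2.le⟩, hst.symm⟩
  · rintro ⟨s, -, rfl⟩
    exact ⟨s, rfl⟩

lemma Cur.compact (h : Cur a a' T) : IsCompact (range a) := by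
  rw [h.range_eq]
  exact isCompact_Icc.image h.ca

lemma sub_ne {t : ℝ} (hq : q ∉ range a) : a t - q ≠ 0 :=
  fun h => hq ⟨t, sub_eq_zero.1 h⟩

lemma Cur.cint (h : Cur a a' T) (hq : q ∉ range a) : Continuous fun t => a' t / (a t - q) :=
  h.cont.div (h.ca.sub continuous_const) fun _ => sub_ne hq

/-- the primitive is a logarithm -/
lemma Cur.lift (h : Cur a a' T) (hq : q ∉ range a) (t : ℝ) :
    a t - q = (a 0 - q) * Complex.exp (∫ x in (0:ℝ)..t, a' x / (a x - q)) := by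
  have hc := h.cint hq
  have hF : ∀ t, HasDerivAt (fun t => ∫ x in (0:ℝ)..t, a' x / (a x - q)) (a' t / (a t - q)) t :=
    fun t => intervalIntegral.integral_hasDerivAt_right (hc.intervalIntegrable _ _)
      hc.aestronglyMeasurable.stronglyMeasurableAtFilter hc.continuousAt
  have hG : ∀ t, HasDerivAt (fun t => (a t - q) * Complex.exp (-∫ x in (0:ℝ)..t, a' x / (a x - q)))
      0 t := by
    intro t
    have h1 := ((h.der t).sub_const q).mul ((hF t).neg.cexp)
    refine h1.congr_deriv ?_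
    have := sub_ne (t := t) hq
    field_simp
    ring
  have h2 := is_const_of_deriv_eq_zero (fun t => (hG t).differentiableAt) (fun t => (hG t).deriv) t 0
  simp only [intervalIntegral.integral_same, neg_zero, Complex.exp_zero, mul_one] at h2
  rw [← h2, mul_assoc, ← Complex.exp_add, neg_add_cancel, Complex.exp_zero, mul_one]

lemma Cur.exp_Wn (h : Cur a a' T) (hq : q ∉ range a) : Complex.exp (Wn a a' T q) = 1 := by
  have h1 := h.lift hq T
  have h2 : a T = a 0 := by simpa using h.per 0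
  rw [h2] at h1
  have h3 := sub_ne (t := 0) hq
  exact (mul_left_cancel₀ h3 (by rw [mul_one]; exact h1)).symm

lemma Cur.bdd (h : Cur a a' T) : ∃ M, 0 < M ∧ ∀ t ∈ Icc 0 T, ‖a' t‖ ≤ M := by
  obtain ⟨M, hM⟩ := (isCompact_Icc (a := (0:ℝ)) (b := T)).exists_bound_of_continuousOn
    h.cont.continuousOn
  exact ⟨max M 1, by positivity, fun t ht => (hM t ht).trans (le_max_left _ _)⟩

lemma Cur.Wn_cont (h : Cur a a' T) (hq : q ∉ range a) : ContinuousAt (Wn a a' T) q := by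
  obtain ⟨M, hM, hM'⟩ := h.bdd
  have hd : 0 < Metric.infDist q (range a) :=
    (h.compact.isClosed.notMem_iff_infDist_pos (range_nonempty a)).1 hq
  obtain ⟨δ, hδ⟩ : ∃ δ, δ = Metric.infDist q (range a) := ⟨_, rfl⟩
  rw [← hδ] at hd
  have hnear : ∀ᶠ x in 𝓝 q, ∀ t, δ / 2 ≤ ‖a t - x‖ := by
    filter_upwards [Metric.ball_mem_nhds q (show 0 < δ / 2 by positivity)] with x hx t
    have h1 : δ ≤ dist q (a t) := hδ ▸ Metric.infDist_le_dist_of_mem ⟨t, rfl⟩
    have h2 : dist q (a t) ≤ dist q x + dist x (a t) := dist_triangle _ _ _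
    rw [Metric.mem_ball, dist_comm] at hx
    rw [← dist_eq_norm, dist_comm]
    linarith
  unfold Wn
  refine intervalIntegral.continuousAt_of_dominated_interval (bound := fun _ => M / (δ / 2))
    ?_ ?_ (intervalIntegrable_const) ?_
  · filter_upwards [hnear] with x hx
    have hx' : x ∉ range a := by
      rintro ⟨t, rfl⟩
      have := hx t
      rw [sub_self, norm_zero] at this
      linarith
    exact (h.cint hx').aestronglyMeasurable
  · filter_upwards [hnear] with x hx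
    refine Eventually.of_forall fun t ht => ?_
    rw [uIoc_of_le h.pos.le] at ht
    rw [norm_div]
    exact div_le_div₀ hM.le (hM' t ⟨ht.1.le, ht.2⟩) (by positivity) (hx t)
  · refine Eventually.of_forall fun t _ => ?_
    exact continuousAt_const.div (continuousAt_const.sub continuousAt_id) (sub_ne hq)

/-- the winding integral is constant on connected sets which avoid the curve -/
lemma Cur.Wn_const (h : Cur a a' T) {A : Set ℂ} (hA : IsPreconnected A)
    (hd : ∀ x ∈ A, x ∉ range a) {x y : ℂ} (hx : x ∈ A) (hy : y ∈ A) :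
    Wn a a' T x = Wn a a' T y := by
  have hint : ∀ z ∈ A, ∃ n : ℤ, Wn a a' T z = n * (2 * Real.pi * Complex.I) := fun z hz =>
    Complex.exp_eq_one_iff.1 (h.exp_Wn (hd z hz))
  set g : ℂ → ℝ := fun z => (Wn a a' T z).im / (2 * Real.pi) with hg
  have hgc : ContinuousOn g A := fun z hz =>
    ((Complex.continuous_im.continuousAt.comp (h.Wn_cont (hd z hz))).div_const _).continuousWithinAt
  have hpi := Real.pi_pos
  have hgi : ∀ z ∈ A, ∃ n : ℤ, g z = n ∧ Wn a a' T z = n * (2 * Real.pi * Complex.I) := by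
    intro z hz
    obtain ⟨n, hn⟩ := hint z hz
    refine ⟨n, ?_, hn⟩
    simp only [hg]
    rw [hn]
    simp only [Complex.mul_im, Complex.intCast_re, Complex.intCast_im, Complex.mul_re,
      Complex.re_ofNat, Complex.im_ofNat, Complex.ofReal_re, Complex.ofReal_im, Complex.I_re,
      Complex.I_im]
    field_simp
    ring
  have hle : ∀ {x y : ℂ}, x ∈ A → y ∈ A → g x ≤ g y := by
    intro x y hx hy
    by_contra hlt
    push Not at hlt
    obtain ⟨n, hn, -⟩ := hgi x hx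
    obtain ⟨m, hm, -⟩ := hgi y hy
    rw [hn, hm] at hlt
    have h1 : (m:ℝ) + 1 ≤ n := by
      have : m < n := by exact_mod_cast hlt
      exact_mod_cast this
    have h2 := (hA.image g hgc).ordConnected.out ⟨y, hy, rfl⟩ ⟨x, hx, rfl⟩
      (show (m:ℝ) + 1 / 2 ∈ Icc (g y) (g x) by rw [hn, hm]; constructor <;> linarith)
    obtain ⟨z, hz, hz'⟩ := h2
    obtain ⟨k, hk, -⟩ := hgi z hz
    rw [hk] at hz'
    have h3 : (2 * (k - m) : ℤ) = 1 := by
      have : (2:ℝ) * (k - m) = 1 := by linarith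
      exact_mod_cast this
    omega
  have heq := le_antisymm (hle hx hy) (hle hy hx)
  obtain ⟨n, hn, hn'⟩ := hgi x hx
  obtain ⟨m, hm, hm'⟩ := hgi y hy
  have : (n:ℝ) = m := by rw [← hn, ← hm, heq]
  have hnm : n = m := by exact_mod_cast this
  rw [hn', hm', hnm]

/-- the winding integral vanishes at the points outside of a disc which contains the curve -/
lemma Cur.Wn_out (h : Cur a a' T) (hq : q ∉ range a) (hle : ∀ t, ‖a t‖ ≤ ‖q‖) :
    Wn a a' T q = 0 := by
  have hq0 : 0 < ‖q‖ := by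
    rcases (norm_nonneg q).eq_or_lt with h0 | h0
    · exfalso
      have h1 := hle 0
      rw [← h0] at h1
      have h2 : a 0 = 0 := norm_le_zero_iff.1 h1
      have h3 : q = 0 := norm_eq_zero.1 h0.symm
      exact hq ⟨0, by rw [h2, h3]⟩
    · exact h0
  obtain ⟨M, hM, hM'⟩ := h.bdd
  -- a far point of the ray
  obtain ⟨r, hr⟩ : ∃ r : ℝ, r = 2 + T * M / ‖q‖ := ⟨_, rfl⟩
  have hT := h.pos
  have hr1 : 1 < r := by
    have : 0 ≤ T * M / ‖q‖ := by positivity
    linarith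
  set A : Set ℂ := (fun x : ℝ => (x : ℂ) * q) '' Ici 1 with hA
  have hAp : IsPreconnected A := isPreconnected_Ici.image _ (by fun_prop)
  have hAd : ∀ x ∈ A, x ∉ range a := by
    rintro _ ⟨x, hx, rfl⟩ ⟨t, ht⟩
    replace ht : a t = (x : ℂ) * q := ht
    have hx1 : 1 ≤ x := hx
    have h1 := hle t
    rw [ht, norm_mul, Complex.norm_real, Real.norm_of_nonneg (by linarith)] at h1
    have h2 : x ≤ 1 := by
      by_contra hc
      push Not at hc
      nlinarith
    have h3 : x = 1 := le_antisymm h2 hx1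
    rw [h3, Complex.ofReal_one, one_mul] at ht
    exact hq ⟨t, ht⟩
  have h1 : Wn a a' T q = Wn a a' T (r * q) :=
    h.Wn_const hAp hAd ⟨1, mem_Ici.2 le_rfl, by simp⟩ ⟨r, hr1.le, rfl⟩
  rw [h1]
  have hrq : (r : ℂ) * q ∉ range a := hAd _ ⟨r, hr1.le, rfl⟩
  obtain ⟨n, hn⟩ := Complex.exp_eq_one_iff.1 (h.exp_Wn hrq)
  have h2 : ‖Wn a a' T (r * q)‖ ≤ M / ((r - 1) * ‖q‖) * |T - 0| := by
    refine intervalIntegral.norm_integral_le_of_norm_le_const fun t ht => ?_
    rw [uIoc_of_le hT.le] at ht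
    rw [norm_div]
    have h3 : (r - 1) * ‖q‖ ≤ ‖a t - r * q‖ := by
      have h4 : ‖(r : ℂ) * q‖ = r * ‖q‖ := by
        rw [norm_mul, Complex.norm_real, Real.norm_of_nonneg (by linarith)]
      have h5 := norm_sub_norm_le ((r : ℂ) * q) (a t)
      rw [h4, norm_sub_rev] at h5
      have := hle t
      linarith
    have h4 : 0 < (r - 1) * ‖q‖ := mul_pos (by linarith) hq0
    exact div_le_div₀ hM.le (hM' t ⟨ht.1.le, ht.2⟩) h4 h3
  have h3 : M / ((r - 1) * ‖q‖) * |T - 0| < 1 := by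
    rw [sub_zero, abs_of_pos hT, div_mul_eq_mul_div, div_lt_one (mul_pos (by linarith) hq0)]
    have : (r - 1) * ‖q‖ = ‖q‖ + T * M := by
      rw [hr]
      field_simp
      ring
    rw [this]
    linarith
  have h4 : ‖Wn a a' T (r * q)‖ < 1 := h2.trans_lt h3
  rw [hn] at h4 ⊢
  have h5 : ‖(n : ℂ) * (2 * Real.pi * Complex.I)‖ = |(n:ℝ)| * (2 * Real.pi) := by
    rw [norm_mul, norm_mul, norm_mul, Complex.norm_I, Complex.norm_real,
      Real.norm_of_nonneg Real.pi_pos.le]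
    simp
  rw [h5] at h4
  have h6 : n = 0 := by
    by_contra hc
    have h7 : (1:ℝ) ≤ |(n:ℝ)| := by exact_mod_cast Int.one_le_abs hc
    have := Real.pi_gt_three
    nlinarith
  rw [h6]
  simp

/-- the winding integral at the points of a disc which the curve does not enter -/
lemma Cur.Wn_in (h : Cur a a' T) (hq : q ∉ range a) (h0 : (0:ℂ) ∉ range a)
    (hle : ∀ t, ‖q‖ ≤ ‖a t‖) : Wn a a' T q = Wn a a' T 0 := by
  set A : Set ℂ := (fun x : ℝ => (x : ℂ) * q) '' Icc 0 1 with hA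
  have hAp : IsPreconnected A := isPreconnected_Icc.image _ (by fun_prop)
  have hAd : ∀ x ∈ A, x ∉ range a := by
    rintro _ ⟨x, hx, rfl⟩ ⟨t, ht⟩
    replace ht : a t = (x : ℂ) * q := ht
    have h1 := hle t
    rw [ht, norm_mul, Complex.norm_real, Real.norm_of_nonneg hx.1] at h1
    rcases (norm_nonneg q).eq_or_lt with hq0 | hq0
    · have : q = 0 := norm_eq_zero.1 hq0.symm
      rw [this, mul_zero] at ht
      exact h0 ⟨t, ht⟩
    · have h2 : 1 ≤ x := by
        by_contra hc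
        push Not at hc
        nlinarith
      have h3 : x = 1 := le_antisymm hx.2 h2
      rw [h3, Complex.ofReal_one, one_mul] at ht
      exact hq ⟨t, ht⟩
  exact h.Wn_const hAp hAd ⟨1, ⟨zero_le_one, le_rfl⟩, by simp⟩ ⟨0, ⟨le_rfl, zero_le_one⟩, by simp⟩

/-- two disjoint curves which wind around the origin have different distances to the origin -/
theorem min_ne (ha : Cur a a' T) (hb : Cur b b' S) (hd : ∀ s t, a s ≠ b t)
    (ha0 : (0:ℂ) ∉ range a) (hb0 : (0:ℂ) ∉ range b) (hwa : Wn a a' T 0 ≠ 0)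
    (hwb : Wn b b' S 0 ≠ 0) {s₀ t₀ : ℝ} (hs : ∀ s, ‖a s₀‖ ≤ ‖a s‖) (ht : ∀ t, ‖b t₀‖ ≤ ‖b t‖) :
    ‖a s₀‖ ≠ ‖b t₀‖ := by
  intro heq
  have hab : ∀ t, b t ∉ range a := by rintro t ⟨s, hs⟩; exact hd s t hs
  have hba : ∀ s, a s ∉ range b := by rintro s ⟨t, ht⟩; exact hd s t ht.symm
  have h1 : ∀ t, Wn a a' T (b t) ≠ 0 := by
    intro t
    have h2 : Wn a a' T (b t) = Wn a a' T (b t₀) :=
      ha.Wn_const (isPreconnected_range hb.ca) (by rintro _ ⟨t, rfl⟩; exact hab t)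
        ⟨t, rfl⟩ ⟨t₀, rfl⟩
    rw [h2, ha.Wn_in (hab t₀) ha0 (fun s => heq ▸ hs s)]
    exact hwa
  have h2 : ∀ s, Wn b b' S (a s) ≠ 0 := by
    intro s
    have h3 : Wn b b' S (a s) = Wn b b' S (a s₀) :=
      hb.Wn_const (isPreconnected_range ha.ca) (by rintro _ ⟨t, rfl⟩; exact hba t)
        ⟨s, rfl⟩ ⟨s₀, rfl⟩
    rw [h3, hb.Wn_in (hba s₀) hb0 (fun t => heq ▸ ht t)]
    exact hwb
  obtain ⟨x, ⟨s₁, rfl⟩, hx⟩ := ha.compact.exists_isMaxOn (range_nonempty a) continuous_norm.continuousOn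
  obtain ⟨y, ⟨t₁, rfl⟩, hy⟩ := hb.compact.exists_isMaxOn (range_nonempty b) continuous_norm.continuousOn
  rcases le_total ‖a s₁‖ ‖b t₁‖ with h | h
  · exact h1 t₁ (ha.Wn_out (hab t₁) fun t => (hx ⟨t, rfl⟩ : ‖a t‖ ≤ ‖a s₁‖).trans h)
  · exact h2 s₁ (hb.Wn_out (hba s₁) fun t => (hy ⟨t, rfl⟩ : ‖b t‖ ≤ ‖b t₁‖).trans h)

/-- two disjoint curves which wind around the origin have different outer radii -/
theorem max_ne (ha : Cur a a' T) (hb : Cur b b' S) (hd : ∀ s t, a s ≠ b t)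
    (ha0 : (0:ℂ) ∉ range a) (hb0 : (0:ℂ) ∉ range b) (hwa : Wn a a' T 0 ≠ 0)
    (hwb : Wn b b' S 0 ≠ 0) {s₀ t₀ : ℝ} (hs : ∀ s, ‖a s‖ ≤ ‖a s₀‖) (ht : ∀ t, ‖b t‖ ≤ ‖b t₀‖) :
    ‖a s₀‖ ≠ ‖b t₀‖ := by
  intro heq
  have hab : ∀ t, b t ∉ range a := by rintro t ⟨s, hs⟩; exact hd s t hs
  have hba : ∀ s, a s ∉ range b := by rintro s ⟨t, ht⟩; exact hd s t ht.symm
  have h1 : ∀ t, Wn a a' T (b t) = 0 := by
    intro t
    have h2 : Wn a a' T (b t) = Wn a a' T (b t₀) :=
      ha.Wn_const (isPreconnected_range hb.ca) (by rintro _ ⟨t, rfl⟩; exact hab t)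
        ⟨t, rfl⟩ ⟨t₀, rfl⟩
    rw [h2, ha.Wn_out (hab t₀) (fun s => heq ▸ hs s)]
  have h2 : ∀ s, Wn b b' S (a s) = 0 := by
    intro s
    have h3 : Wn b b' S (a s) = Wn b b' S (a s₀) :=
      hb.Wn_const (isPreconnected_range ha.ca) (by rintro _ ⟨t, rfl⟩; exact hba t)
        ⟨s, rfl⟩ ⟨s₀, rfl⟩
    rw [h3, hb.Wn_out (hba s₀) (fun t => heq ▸ ht t)]
  obtain ⟨x, ⟨s₁, rfl⟩, hx⟩ := ha.compact.exists_isMinOn (range_nonempty a) continuous_norm.continuousOn
  obtain ⟨y, ⟨t₁, rfl⟩, hy⟩ := hb.compact.exists_isMinOn (range_nonempty b) continuous_norm.continuousOn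
  rcases le_total ‖a s₁‖ ‖b t₁‖ with h | h
  · apply hwb
    rw [← hb.Wn_in (hba s₁) hb0 fun t => h.trans (hy ⟨t, rfl⟩ : ‖b t₁‖ ≤ ‖b t‖), h2]
  · apply hwa
    rw [← ha.Wn_in (hab t₁) ha0 fun t => h.trans (hx ⟨t, rfl⟩ : ‖a s₁‖ ≤ ‖a t‖), h1]

end Pool.Agent.Q62.HU
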