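import Pool.Agent.Q62.HU.Touch
import Pool.Agent.W960.HP.Rot
import Pool.Agent.W960.HQ.Parts
import Pool.Agent.Helper486.Saddle.Winding
import Pool.Agent.H709U.Top

/-! Closed orbits of rotated fields as closed curves in the complex plane; two closed orbits in an
annulus without zeros of the field are compared by a dilation. -/

open Real Set MeasureTheory Topology Filter

namespace Pool.Agent.Q62.HU

noncomputable section

open Pool.Agent.H709R2 (rot wedge field ClosedOrbit)
open Pool.Agent.H709U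

/-- the identification of the plane with the complex numbers -/
def ec : (ℝ × ℝ) ≃L[ℝ] ℂ := Complex.equivRealProdCLM.symm

lemma ec_re (z : ℝ × ℝ) : (ec z).re = z.1 := by simp [ec, Complex.equivRealProdCLM_symm_apply]

lemma ec_im (z : ℝ × ℝ) : (ec z).im = z.2 := by simp [ec, Complex.equivRealProdCLM_symm_apply]

lemma ec_rot (α : ℝ) (v : ℝ × ℝ) : ec (rot α v) = Complex.exp (α * Complex.I) * ec v := by
  have h1 : ∀ w : ℝ × ℝ, ec w = (w.1 : ℂ) + w.2 * Complex.I := fun w => by
    simp [ec, Complex.equivRealProdCLM_symm_apply]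
  rw [h1, h1, Complex.exp_mul_I]
  unfold H709R2.rot
  push_cast
  ring_nf
  rw [Complex.I_sq]
  ring

lemma norm_ec (z : ℝ × ℝ) : ‖ec z‖ ^ 2 = H709R2.sq z := by
  rw [Complex.sq_norm, Complex.normSq_apply, ec_re, ec_im]
  unfold H709R2.sq
  ring

lemma norm_ec_sub {p z : ℝ × ℝ} (h : z ≠ p) : ‖ec (z - p)‖ = exp (lg p z) := by
  have h1 := norm_ec (z - p)
  have h2 : 0 < ‖ec (z - p)‖ := by
    rw [norm_pos_iff, Ne, map_eq_zero_iff ec ec.injective]
    exact sub_ne_zero.2 h
  unfold lg
  rw [← h1, Real.log_pow]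
  push_cast
  rw [mul_div_assoc, mul_comm, div_mul_cancel₀ _ (by norm_num : (2:ℝ) ≠ 0), Real.exp_log h2]

variable {X : ℝ × ℝ → ℝ × ℝ} {p : ℝ × ℝ} {α β : ℝ} {γ δ : ℝ → ℝ × ℝ} {T S : ℝ}

lemma orb_cont (h : Orb (rf X α) γ T) : Continuous γ :=
  continuous_iff_continuousAt.mpr fun t => (h.ode t).continuousAt

/-- a closed orbit is a closed curve of class `C¹` -/
lemma cur_of_orb (hX : Continuous X) (p : ℝ × ℝ) (h : Orb (rf X α) γ T) :
    Cur (fun t => ec (γ t - p)) (fun t => ec (rf X α (γ t))) T where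
  pos := h.pos
  der t := ec.hasFDerivAt.comp_hasDerivAt t ((h.ode t).sub_const p)
  cont := by
    have h1 : Continuous fun t => Complex.exp (α * Complex.I) * ec (X (γ t)) :=
      continuous_const.mul (ec.continuous.comp (hX.comp (orb_cont h)))
    exact h1.congr fun t => (ec_rot _ _).symm
  per t := by simp only [h.per t]

/-- a closed orbit in an annulus without zeros winds around the center -/
theorem wind_ne (t1 : S_T1) (hX : Continuous X) (h : Orb (rf X α) γ T) {u₀ u₁ : ℝ}
    (hz : ∀ z, z ≠ p → u₀ ≤ lg p z → lg p z ≤ u₁ → X z ≠ 0) (hle : u₀ ≤ u₁)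
    (hγ : ∀ t, γ t ≠ p) (hγ0 : ∀ t, u₀ ≤ lg p (γ t)) (hγ1 : ∀ t, lg p (γ t) ≤ u₁) :
    Wn (fun t => ec (γ t - p)) (fun t => ec (rf X α (γ t))) T 0 ≠ 0 := by
  intro hw
  set a : ℝ → ℂ := fun t => ec (γ t - p) with ha
  set a' : ℝ → ℂ := fun t => ec (rf X α (γ t)) with ha'
  have hcur : Cur a a' T := cur_of_orb hX p h
  have ha0 : ∀ t, a t ≠ 0 := fun t => by
    rw [ha, Ne, map_eq_zero_iff ec ec.injective]
    exact sub_ne_zero.2 (hγ t)
  have h0 : (0:ℂ) ∉ range a := by
    rintro ⟨t, ht⟩
    exact ha0 t ht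
  set M : ℝ → ℂ := fun t => Complex.log (a 0) + ∫ x in (0:ℝ)..t, a' x / (a x - 0) with hM
  have hMc : Continuous M := by
    refine continuous_const.add (intervalIntegral.continuous_primitive (fun a b =>
      (hcur.cint h0).intervalIntegrable a b) 0)
  have hMe : ∀ t, Complex.exp (M t) = a t := by
    intro t
    have h1 := hcur.lift h0 t
    rw [sub_zero, sub_zero] at h1
    rw [hM, Complex.exp_add, Complex.exp_log (ha0 0), ← h1]
  have hMT : M T = M 0 := by
    simp only [hM, intervalIntegral.integral_same, add_zero]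
    have : ∫ x in (0:ℝ)..T, a' x / (a x - 0) = 0 := hw
    rw [this, add_zero]
  have hpt : ∀ t, pt p (M t).re (M t).im = γ t := by
    intro t
    have h1 := hMe t
    have h2 : (a t).re = (γ t).1 - p.1 := by simp only [ha]; rw [ec_re]; rfl
    have h3 : (a t).im = (γ t).2 - p.2 := by simp only [ha]; rw [ec_im]; rfl
    rw [← h1, Complex.exp_re] at h2
    rw [← h1, Complex.exp_im] at h3
    unfold pt
    refine Prod.ext ?_ ?_
    · simp only
      rw [h2]
      ring
    · simp only
      rw [h3]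
      ring
  have hre : ∀ t, (M t).re = lg p (γ t) := fun t => by
    conv_rhs => rw [← hpt t]
    rw [lg_pt]
  set cl : ℝ → ℝ := fun x => max u₀ (min x u₁) with hcl
  obtain ⟨l, hl, hle'⟩ := Saddle486.exists_log (E := ℝ × ℝ)
    (F := fun x => ec (X (pt p (cl x.1) x.2)))
    (ec.continuous.comp (hX.comp ((continuous_pt p).comp
      (by fun_prop : Continuous fun x : ℝ × ℝ => (cl x.1, x.2))))) (fun x => by
      rw [Ne, map_eq_zero_iff ec ec.injective]
      refine hz _ (pt_ne _ _ _) ?_ ?_
      · rw [lg_pt]; exact le_max_left _ _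
      · rw [lg_pt]; exact max_le hle (min_le_right _ _))
  have hG := hcur.der
  have key := t2 t1 (fun t => ec (γ t)) a' T h.pos
    (fun t => ec.hasFDerivAt.comp_hasDerivAt t (h.ode t)) hcur.cont
    (fun t => by simp only [h.per t]) (fun t => by
      simp only [ha']
      rw [Ne, map_eq_zero_iff ec ec.injective]
      exact h.ne t) (fun s t hst => h.inj s t (ec.injective hst))
    (fun t => l ((M t).re, (M t).im) + α * Complex.I)
    ((hl.comp ((Complex.continuous_re.comp hMc).prodMk (Complex.continuous_im.comp hMc))).add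
      continuous_const) (fun t => by
      rw [Complex.exp_add, hle']
      have h1 : cl (M t).re = (M t).re := by
        rw [hre]
        simp only [hcl]
        rw [min_eq_left (hγ1 t), max_eq_right (hγ0 t)]
      simp only [h1]
      rw [hpt, mul_comm, ← ec_rot]
      rfl)
  apply key
  show l ((M T).re, (M T).im) + α * Complex.I = l ((M 0).re, (M 0).im) + α * Complex.I
  rw [hMT]

/-- closed orbits of rotated fields are disjoint or equal -/
lemma orb_disjoint (hX : ContDiff ℝ 2 X) (h : Orb (rf X α) γ T) (h' : Orb (rf X β) δ S)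
    (hne : range γ ≠ range δ) (hαβ : |β - α| < π) : ∀ s t, γ s ≠ δ t := by
  intro s t hst
  rcases eq_or_ne α β with rfl | hab
  · exact hne (W960.HP.orbits_eq (W960.HP.rf_smooth hX α) h.pos h'.pos h.ode h'.ode h.per h'.per
      hst)
  · have hnc : ∀ {α : ℝ} {γ : ℝ → ℝ × ℝ} {T : ℝ}, Orb (rf X α) γ T →
        ClosedOrbit (rf X α) (range γ) := by
      intro α γ T h
      refine ⟨γ, T, h.pos, h.ode, h.per, ?_, rfl⟩
      refine ⟨0, T / 2, fun h0 => ?_⟩
      obtain ⟨k, hk⟩ := h.inj _ _ h0
      have hT := h.pos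
      have h1 : (1 + 2 * k : ℝ) * T = 0 := by linarith
      have h2 : (1 + 2 * k : ℝ) = 0 := (mul_eq_zero.1 h1).resolve_right hT.ne'
      have h3 : (1 + 2 * k : ℤ) = 0 := by exact_mod_cast h2
      omega
    have hsin : Real.sin (β - α) ≠ 0 := by
      intro h0
      have h1 := abs_lt.1 hαβ
      have h2 : β - α = 0 := by
        rcases lt_trichotomy (β - α) 0 with h3 | h3 | h3
        · have := Real.sin_neg_of_neg_of_neg_pi_lt h3 h1.1
          linarith
        · exact h3
        · have := Real.sin_pos_of_pos_of_lt_pi h3 h1.2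
          linarith
      exact hab (by linarith)
    have hd := W960.HP.disjoint_rf hX hsin (hnc h) (hnc h')
    exact (Set.disjoint_left.1 hd) ⟨s, rfl⟩ ⟨t, hst.symm⟩

end

end Pool.Agent.Q62.HU
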